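import Pool.Agent.TH571.PCV.Block

set_option autoImplicit false
set_option maxHeartbeats 4000000

/-!
The arithmetic of exponents which fill an interval outside two points.
-/

namespace Pool.Agent.Q168.PC

open Finset Pool.Agent.TH571.PCV

lemma emod_of_small {N v b t : ℤ} (h : N ∣ v - (b + t)) (h0 : 0 ≤ t) (h1 : t < N) :
    (v - b) % N = t := by
  obtain ⟨k, hk⟩ := h
  have h2 : v - b = t + N * k := by linarith
  rw [h2, Int.add_mul_emod_self_left]
  exact Int.emod_eq_of_lt h0 h1

/-- If the remainders satisfy the two inequalities, and the residues outside `P` and `Q` fill an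
interval, then there is a resonance. -/
theorem resonance {ι : Type*} [Fintype ι] [DecidableEq ι] {n r : ℕ} (hcard : Fintype.card ι = n + 1)
    {N : ℤ} (hN : 0 < N) (v : ι → Fin r → ℤ)
    (hL : ∀ x : ι → ℤ, ∑ i, x i = 1 → (r : ℤ) * (N - 1) ≤ ∑ i, ∑ l, (v i l - x i) % N)
    (hU : ∀ x : ι → ℤ, ∑ i, x i = n → ∑ i, ∑ l, (v i l - x i) % N ≤ (n : ℤ) * (r * (N - 1)))
    {P Q : ι} (hPQ : P ≠ Q) (b : ι → ℤ) (t : ι → Fin r → ℤ) (L : ι → ℤ)
    (hL0 : ∀ i, 0 ≤ L i)
    (ht : ∀ i, i ≠ P → i ≠ Q → ∀ l, N ∣ v i l - (b i + t i l) ∧ 0 ≤ t i l ∧ t i l ≤ L i)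
    (hfull : ∀ s : ℤ, 0 ≤ s → s ≤ ∑ i ∈ (univ.erase P).erase Q, L i →
      ∃ κ : ι → Fin r, ∑ i ∈ (univ.erase P).erase Q, t i (κ i) = s) :
    ∃ κ : ι → Fin r, N ∣ ∑ i, v i (κ i) := by
  classical
  by_contra hno
  push Not at hno
  set T : Finset ι := (univ.erase P).erase Q with hT
  have hsplit : ∀ f : ι → ℤ, ∑ i, f i = f P + (f Q + ∑ i ∈ T, f i) := by
    intro f
    rw [← Finset.add_sum_erase univ f (mem_univ P),
      ← Finset.add_sum_erase (univ.erase P) f (mem_erase.2 ⟨hPQ.symm, mem_univ Q⟩)]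
  have hTP : ∀ i ∈ T, i ≠ P := fun i hi => (mem_erase.1 (mem_erase.1 hi).2).1
  have hTQ : ∀ i ∈ T, i ≠ Q := fun i hi => (mem_erase.1 hi).1
  have hcT : (T.card : ℤ) = n - 1 := by
    have h1 : T.card + 1 + 1 = n + 1 := by
      rw [hT, card_erase_of_mem (mem_erase.2 ⟨hPQ.symm, mem_univ Q⟩),
        card_erase_of_mem (mem_univ P), card_univ, hcard]
      have h2 : 2 ≤ Fintype.card ι := by
        have := Fintype.one_lt_card_iff.2 ⟨P, Q, hPQ⟩
        omega
      omega
    push_cast [← Int.natCast_inj] at h1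
    linarith
  set B : ℤ := ∑ i ∈ T, b i with hB
  set Lt : ℤ := ∑ i ∈ T, L i with hLt
  have hLt0 : 0 ≤ Lt := sum_nonneg fun i _ => hL0 i
  -- no resonance with the sums of the exponents outside `P`, `Q`
  have hres : ∀ (l l' : Fin r) (s : ℤ), 0 ≤ s → s ≤ Lt → ¬ N ∣ v P l + v Q l' + B + s := by
    intro l l' s h0 h1 hd
    obtain ⟨κ, hκ⟩ := hfull s h0 h1
    refine hno (fun i => if i = P then l else if i = Q then l' else κ i) ?_
    rw [hsplit]
    simp only [if_true]
    rw [if_neg hPQ.symm]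
    have h2 : ∑ i ∈ T, v i (if i = P then l else if i = Q then l' else κ i) =
        ∑ i ∈ T, (v i (κ i) - (b i + t i (κ i))) + (B + s) := by
      rw [sum_sub_distrib, sum_add_distrib, hκ, ← hB]
      have h3 : ∀ i ∈ T, v i (if i = P then l else if i = Q then l' else κ i) = v i (κ i) := by
        intro i hi
        rw [if_neg (hTP i hi), if_neg (hTQ i hi)]
      rw [sum_congr rfl h3]
      ring
    rw [h2]
    have h4 : N ∣ ∑ i ∈ T, (v i (κ i) - (b i + t i (κ i))) :=
      dvd_sum fun i hi => (ht i (hTP i hi) (hTQ i hi) _).1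
    have h5 : v P l + (v Q l' + (∑ i ∈ T, (v i (κ i) - (b i + t i (κ i))) + (B + s))) =
        ∑ i ∈ T, (v i (κ i) - (b i + t i (κ i))) + (v P l + v Q l' + B + s) := by ring
    rw [h5]
    exact dvd_add h4 hd
  obtain ⟨κ0, -⟩ := hfull 0 le_rfl hLt0
  set l0 : Fin r := κ0 P with hl0
  have hLtN : Lt < N - 1 := by
    by_contra hcon
    push Not at hcon
    have h1 := Int.emod_nonneg (-(v P l0 + v Q l0 + B)) hN.ne'
    have h2 := Int.emod_lt_of_pos (-(v P l0 + v Q l0 + B)) hN
    refine hres l0 l0 _ h1 (by omega) ?_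
    have h3 := Int.mul_ediv_add_emod (-(v P l0 + v Q l0 + B)) N
    exact ⟨-((-(v P l0 + v Q l0 + B)) / N), by linarith⟩
  have hLi : ∀ i ∈ T, L i ≤ Lt := fun i hi => single_le_sum (fun j _ => hL0 j) hi
  set x0 : ℤ := v P l0 with hx0
  -- the first inequality
  set S : ℤ := ∑ i ∈ T, ∑ l, t i l with hS
  have e1 : (r : ℤ) * (N - 1) ≤ ∑ l, (v P l - x0) % N + (∑ l, (v Q l + x0 + B - 1) % N + S) := by
    have h1 := hL (fun i => if i = P then x0 else if i = Q then 1 - B - x0 else b i) (by
      rw [hsplit]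
      simp only [if_true]
      rw [if_neg hPQ.symm]
      have h3 : ∀ i ∈ T, (if i = P then x0 else if i = Q then 1 - B - x0 else b i) = b i := by
        intro i hi
        rw [if_neg (hTP i hi), if_neg (hTQ i hi)]
      rw [sum_congr rfl h3, ← hB]
      ring)
    rw [hsplit] at h1
    simp only [if_true] at h1
    rw [if_neg hPQ.symm] at h1
    have h3 : ∀ i ∈ T, ∑ l, (v i l - (if i = P then x0 else if i = Q then 1 - B - x0 else b i)) % N
        = ∑ l, t i l := by
      intro i hi
      rw [if_neg (hTP i hi), if_neg (hTQ i hi)]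
      refine sum_congr rfl fun l _ => ?_
      obtain ⟨k1, k2, k3⟩ := ht i (hTP i hi) (hTQ i hi) l
      exact emod_of_small k1 k2 (by have := hLi i hi; omega)
    rw [sum_congr rfl h3, ← hS] at h1
    have h4 : ∀ l, (v Q l - (1 - B - x0)) % N = (v Q l + x0 + B - 1) % N := fun l => by
      congr 1; ring
    rw [sum_congr rfl fun l _ => h4 l] at h1
    exact h1
  -- the second inequality
  have e2 : ∑ l, (v P l - x0 - 1) % N + (∑ l, (v Q l + x0 + B + Lt) % N +
      (((n : ℤ) - 1) * (r * (N - 1)) - r * Lt + S)) ≤ (n : ℤ) * (r * (N - 1)) := by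
    have h1 := hU (fun i => if i = P then x0 + 1 else if i = Q then -x0 - B - Lt else
      b i + L i + 1) (by
      rw [hsplit]
      simp only [if_true]
      rw [if_neg hPQ.symm]
      have h3 : ∀ i ∈ T, (if i = P then x0 + 1 else if i = Q then -x0 - B - Lt else
          b i + L i + 1) = b i + L i + 1 := by
        intro i hi
        rw [if_neg (hTP i hi), if_neg (hTQ i hi)]
      rw [sum_congr rfl h3, sum_add_distrib, sum_add_distrib, ← hB, ← hLt, sum_const,
        nsmul_eq_mul, mul_one, hcT]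
      ring)
    rw [hsplit] at h1
    simp only [if_true] at h1
    rw [if_neg hPQ.symm] at h1
    have h3 : ∀ i ∈ T, ∑ l, (v i l - (if i = P then x0 + 1 else if i = Q then -x0 - B - Lt else
        b i + L i + 1)) % N = r * (N - 1) - r * L i + ∑ l, t i l := by
      intro i hi
      rw [if_neg (hTP i hi), if_neg (hTQ i hi)]
      have h5 : ∀ l, (v i l - (b i + L i + 1)) % N = (N - 1) - L i + t i l := by
        intro l
        obtain ⟨k1, k2, k3⟩ := ht i (hTP i hi) (hTQ i hi) l
        refine emod_of_small ?_ (by have := hLi i hi; omega) (by have := hLi i hi; omega)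
        have h6 : v i l - (b i + L i + 1 + (N - 1 - L i + t i l)) =
            v i l - (b i + t i l) - N := by ring
        rw [h6]
        exact dvd_sub k1 dvd_rfl
      rw [sum_congr rfl fun l _ => h5 l, sum_add_distrib, sum_const, card_univ, Fintype.card_fin,
        nsmul_eq_mul]
      ring
    have h5 : ∑ i ∈ T, ((r : ℤ) * (N - 1) - r * L i + ∑ l, t i l) =
        ((n : ℤ) - 1) * (r * (N - 1)) - r * Lt + S := by
      rw [sum_add_distrib, sum_sub_distrib, sum_const, nsmul_eq_mul, hcT, ← mul_sum]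
    rw [sum_congr rfl h3, h5] at h1
    have h4 : ∀ l, (v Q l - (-x0 - B - Lt)) % N = (v Q l + x0 + B + Lt) % N := fun l => by
      congr 1; ring
    have h6 : ∀ l, (v P l - (x0 + 1)) % N = (v P l - x0 - 1) % N := fun l => by
      congr 1; ring
    rw [sum_congr rfl fun l _ => h4 l, sum_congr rfl fun l _ => h6 l] at h1
    exact h1
  -- comparison at `P`
  have e3 : ∑ l, (v P l - x0) % N - r + N ≤ ∑ l, (v P l - x0 - 1) % N := by
    have h1 : ∀ l, (v P l - x0) % N - 1 + (if l = l0 then N else 0) ≤ (v P l - x0 - 1) % N := by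
      intro l
      rw [sub_one_emod hN]
      have h2 := Int.emod_nonneg (v P l - x0) hN.ne'
      by_cases hl : l = l0
      · subst hl
        rw [if_pos rfl]
        have h3 : v P l0 - x0 = 0 := by rw [hx0]; ring
        rw [h3, if_pos (dvd_zero N)]
        omega
      · rw [if_neg hl]
        split_ifs <;> linarith
    have h2 := sum_le_sum fun (l : Fin r) (_ : l ∈ univ) => h1 l
    rw [sum_add_distrib, sum_sub_distrib, sum_const, card_univ, Fintype.card_fin, nsmul_eq_mul,
      mul_one, sum_ite_eq' univ l0, if_pos (mem_univ _)] at h2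
    exact h2
  -- comparison at `Q`
  have e4 : ∑ l, (v Q l + x0 + B + Lt) % N = ∑ l, (v Q l + x0 + B - 1) % N + r * (Lt + 1) := by
    have h1 : ∀ l, (v Q l + x0 + B + Lt) % N = (v Q l + x0 + B - 1) % N + (Lt + 1) := by
      intro l
      set y : ℤ := (v Q l + x0 + B - 1) % N with hy
      have h2 : 0 ≤ y := Int.emod_nonneg _ hN.ne'
      have h3 : y < N := Int.emod_lt_of_pos _ hN
      have h4 := Int.mul_ediv_add_emod (v Q l + x0 + B - 1) N
      rw [← hy] at h4
      have h5 : y + (Lt + 1) < N := by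
        by_contra hcon
        push Not at hcon
        refine hres l0 l (N - 1 - y) (by omega) (by omega) ?_
        refine ⟨(v Q l + x0 + B - 1) / N + 1, ?_⟩
        rw [← hx0]
        linarith
      have h6 : v Q l + x0 + B + Lt = (y + (Lt + 1)) + N * ((v Q l + x0 + B - 1) / N) := by
        linarith
      rw [h6, Int.add_mul_emod_self_left]
      exact Int.emod_eq_of_lt (by omega) h5
    rw [sum_congr rfl fun l _ => h1 l, sum_add_distrib, sum_const, card_univ, Fintype.card_fin,
      nsmul_eq_mul]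
  rw [e4] at e2
  linarith

end Pool.Agent.Q168.PC
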