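import Pool.Agent.Q168.PC.Sys
import Pool.Agent.TH829.PC.Ineq
import Pool.Agent.TH829.PC.Data2

set_option autoImplicit false
set_option maxHeartbeats 4000000

/-!
Fuchsian operators whose exponents outside two points fill an interval.
-/

namespace Pool.Agent.Q168.PC

open Finset Polynomial Pool.Agent.W280.PC Pool.Agent.W432.WB Pool.Agent.TH829.PC
open Pool.Agent.TH571.PCV (pos_of_ineq neg_sub_one_emod)
open Pool.Agent.W432.PC (wt lexLE)

universe u

/-- The inequality of remainders for an operator without bad primes in the class `a`. -/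
theorem op_pos {F : Type u} [Field F] [CharZero F] {m n : ℕ} (hm : 0 < m) (hn : 0 < n)
    (b : Fin (n + 1) → ℤ[X]) (hb : b (Fin.last n) ≠ 0) (α : Fin m → F) (Q : Fin (n + 1) → F[X])
    (hF : IsFuchs b α Q) (N : ℕ) (hN : 1 < N) (E : Option (Fin m) → Fin n → ℤ)
    (hE : HasExps α Q (fun j l => (E (some j) l : ℚ) / N) (fun l => -(E none l : ℚ) / N))
    (hres : ∀ κ : Option (Fin m) → Fin n, ¬ (N : ℤ) ∣ ∑ x, E x (κ x))
    (a : ℤ) (ha : IsCoprime a (N : ℤ))
    (hno : ¬ ∃ P₀ : ℕ, ∀ p : ℕ, P₀ < p → (N : ℤ) ∣ a * p + 1 → ∀ _hp : Fact p.Prime,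
      ¬ FullMod b p) (x : Option (Fin m) → ℤ) (hx : ∑ i, x i = 1) :
    (n : ℤ) * (N - 1) ≤ ∑ i, ∑ l, (a * E i l - x i) % (N : ℤ) := by
  have hN0 : 0 < N := by omega
  have hN' : (0 : ℤ) < N := by exact_mod_cast hN0
  have hNq : (N : ℚ) ≠ 0 := by exact_mod_cast hN0.ne'
  set e' : Fin n → ℤ := fun l => -E none l + N * ((n - 1) * (m - 1) : ℕ) with he'
  have hres' : ∀ (κ : Fin m → Fin n) (s : Fin n), ¬ (N : ℤ) ∣ ∑ j, E (some j) (κ j) - e' s := by
    intro κ s hdvd
    refine hres (fun x => x.elim s κ) ?_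
    rw [Fintype.sum_option]
    simp only [Option.elim]
    have e1 : E none s + ∑ j, E (some j) (κ j) =
        ∑ j, E (some j) (κ j) - e' s + N * ((n - 1) * (m - 1) : ℕ) := by
      simp only [he']
      ring
    rw [e1]
    exact dvd_add hdvd (Dvd.intro _ rfl)
  obtain ⟨σ, τ, m1, m2, hI⟩ := ineq_op hm hn b hb α Q hF _ _ hE N hN
    (fun j => E (some j)) e' (fun j l => by field_simp) (fun l => by
      simp only [he']
      push_cast
      field_simp) a ha hres' hno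
  have hfu := fuchs_int hm hn hF hE (N := N) (mu := fun j l => E (some j) l)
    (mu' := fun l => -E none l) (fun j l => by field_simp) (fun l => by push_cast; field_simp)
  have hperm : ∀ j, ∑ l, wI N a (E (some j) (σ j l)) = ∑ l, wI N a (E (some j) l) := fun j =>
    Equiv.sum_comp (σ j) (fun l => wI N a (E (some j) l))
  have hperm' : ∑ l, wI N a (e' (τ l)) = ∑ l, wI N a (e' l) :=
    Equiv.sum_comp τ (fun l => wI N a (e' l))
  have hdvd : (N : ℤ) ∣ ∑ j, ∑ l, wI N a (E (some j) l) - ∑ l, wI N a (e' l) := by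
    have h1 : ∑ j, ∑ l, wI N a (E (some j) l) - ∑ l, wI N a (e' l) =
        ∑ j, ∑ l, (wI N a (E (some j) l) - a * E (some j) l) -
          ∑ l, (wI N a (e' l) - a * e' l) - N * (a * ∑ i, ((cw m n i : ℕ) : ℤ)) := by
      simp only [Finset.sum_sub_distrib, ← Finset.mul_sum]
      have h2 : ∑ l, e' l = ∑ j, ∑ l, E (some j) l + N * ∑ i, ((cw m n i : ℕ) : ℤ) := hfu.symm
      rw [h2]
      ring
    rw [h1]
    exact dvd_sub (dvd_sub (Finset.dvd_sum fun j _ => Finset.dvd_sum fun l _ => wI_mod a _)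
      (Finset.dvd_sum fun l _ => wI_mod a _)) (Dvd.intro _ rfl)
  obtain ⟨M, hM⟩ := hdvd
  rw [mul_comm] at hM
  have hpos := pos_of_ineq hN0 (fun j l => wI N a (E (some j) (σ j l))) (fun l => wI N a (e' (τ l)))
    m1 m2 (fun j l => wI_nonneg hN0 a _) (fun j l => wI_le hN0 a _) (fun l => wI_nonneg hN0 a _)
    (fun l => wI_le hN0 a _) M (by simp only [hperm, hperm']; exact hM)
    (fun q κ s hq => (hI M q κ s hM hq).le) (fun j => x (some j))
  have hmod : ∀ y z : ℤ, (wI N a y - z) % (N : ℤ) = (a * y - z) % (N : ℤ) := by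
    intro y z
    refine Int.ModEq.symm (Int.modEq_iff_dvd.2 ?_)
    have h1 := wI_mod (D := N) a y
    have h2 : wI N a y - z - (a * y - z) = wI N a y - a * y := by ring
    rw [h2]
    exact h1
  simp only [hmod] at hpos
  have h1 : ∑ l, (a * e' (τ l) - ∑ j, x (some j)) % (N : ℤ) =
      ∑ l, (a * e' l - ∑ j, x (some j)) % (N : ℤ) :=
    Equiv.sum_comp τ (fun l => (a * e' l - ∑ j, x (some j)) % (N : ℤ))
  have h2 : ∀ j, ∑ l, (a * E (some j) (σ j l) - x (some j)) % (N : ℤ) =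
      ∑ l, (a * E (some j) l - x (some j)) % (N : ℤ) :=
    fun j => Equiv.sum_comp (σ j) (fun l => (a * E (some j) l - x (some j)) % (N : ℤ))
  rw [h1, Finset.sum_congr rfl fun j _ => h2 j] at hpos
  rw [Fintype.sum_option] at hx ⊢
  have h3 : ∀ l, (a * e' l - ∑ j : Fin m, x (some j)) % (N : ℤ) =
      (N - 1) - (a * E none l - x none) % (N : ℤ) := by
    intro l
    rw [← neg_sub_one_emod hN']
    have h4 : a * e' l - ∑ j : Fin m, x (some j) =
        (-(a * E none l - x none) - 1) + N * (a * ((n - 1) * (m - 1) : ℕ)) := by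
      simp only [he']
      linear_combination -hx
    rw [h4, Int.add_mul_emod_self_left]
  rw [Finset.sum_congr rfl fun l _ => h3 l, Finset.sum_sub_distrib, Finset.sum_const,
    Finset.card_univ, Fintype.card_fin, nsmul_eq_mul] at hpos
  linarith

theorem op_main {F : Type u} [Field F] [CharZero F] {m n : ℕ} (hm : 0 < m) (hn : 0 < n)
    (b : Fin (n + 1) → ℤ[X]) (hb : b (Fin.last n) ≠ 0) (α : Fin m → F) (Q : Fin (n + 1) → F[X])
    (hF : IsFuchs b α Q) (N : ℕ) (hN : 1 < N) (E : Option (Fin m) → Fin n → ℤ)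
    (hE : HasExps α Q (fun j l => (E (some j) l : ℚ) / N) (fun l => -(E none l : ℚ) / N))
    (hres : ∀ κ : Option (Fin m) → Fin n, ¬ (N : ℤ) ∣ ∑ x, E x (κ x))
    (d : ℤ) (hd : IsCoprime d (N : ℤ)) (P P' : Option (Fin m)) (hPQ : P ≠ P')
    (c : Option (Fin m) → ℤ) (t : Option (Fin m) → Fin n → ℕ) (L : Option (Fin m) → ℕ)
    (ht : ∀ x, x ≠ P → x ≠ P' → ∀ l, (N : ℤ) ∣ E x l - (c x + d * t x l) ∧ t x l ≤ L x)
    (hfull : (∀ x, x ≠ P → x ≠ P' → ∀ j ≤ L x, ∃ l, t x l = j) ∨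
      ∀ s ≤ ∑ x ∈ (univ.erase P).erase P', L x,
        ∃ κ : Option (Fin m) → Fin n, ∑ x ∈ (univ.erase P).erase P', t x (κ x) = s) :
    (∃ P₀ : ℕ, ∀ p : ℕ, P₀ < p → (N : ℤ) ∣ p - d → ∀ _hp : Fact p.Prime, ¬ FullMod b p) ∨
    (∃ P₀ : ℕ, ∀ p : ℕ, P₀ < p → (N : ℤ) ∣ p + d → ∀ _hp : Fact p.Prime, ¬ FullMod b p) := by
  have hN' : (0 : ℤ) < N := by exact_mod_cast (by omega : 0 < N)
  by_contra hcon
  push Not at hcon
  have : Nonempty (Fin n) := ⟨⟨0, hn⟩⟩
  have hfull' := full_of hfull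
  obtain ⟨u, w, huw⟩ := hd
  have hcard : Fintype.card (Option (Fin m)) = m + 1 := by simp
  have hu : IsCoprime u (N : ℤ) := ⟨d, w, by linear_combination huw⟩
  have hu' : IsCoprime (-u) (N : ℤ) := ⟨-d, w, by linear_combination huw⟩
  -- neither class is bad
  have hno1 : ¬ ∃ P₀ : ℕ, ∀ p : ℕ, P₀ < p → (N : ℤ) ∣ u * p + 1 → ∀ _hp : Fact p.Prime,
      ¬ FullMod b p := by
    rintro ⟨P₀, h⟩
    obtain ⟨p, h1, h2, h3, h4⟩ := hcon.2 P₀
    refine h p h1 ?_ h3 h4
    obtain ⟨k, hk⟩ := h2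
    exact ⟨u * k + w, by linear_combination u * hk - huw⟩
  have hno2 : ¬ ∃ P₀ : ℕ, ∀ p : ℕ, P₀ < p → (N : ℤ) ∣ (-u) * p + 1 → ∀ _hp : Fact p.Prime,
      ¬ FullMod b p := by
    rintro ⟨P₀, h⟩
    obtain ⟨p, h1, h2, h3, h4⟩ := hcon.1 P₀
    refine h p h1 ?_ h3 h4
    obtain ⟨k, hk⟩ := h2
    exact ⟨-u * k + w, by linear_combination -u * hk - huw⟩
  obtain ⟨κ, hκ⟩ := resonance hcard hN' (fun x l => u * E x l)
    (fun x hx => op_pos hm hn b hb α Q hF N hN E hE hres u hu hno1 x hx)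
    (fun x hx => by
      have h1 := op_pos hm hn b hb α Q hF N hN E hE hres (-u) hu' hno2 (fun i => 1 - x i) (by
        rw [sum_sub_distrib, sum_const, card_univ, hcard, nsmul_eq_mul, hx]
        push_cast
        ring)
      have h2 : ∀ (i : Option (Fin m)) (l : Fin n), (-u * E i l - (1 - x i)) % (N : ℤ) =
          (N - 1) - (u * E i l - x i) % (N : ℤ) := by
        intro i l
        rw [← neg_sub_one_emod hN']
        congr 1
        ring
      simp only [h2, Finset.sum_sub_distrib, Finset.sum_const, Finset.card_univ, Fintype.card_fin,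
        nsmul_eq_mul, hcard] at h1
      push_cast at h1
      linarith)
    hPQ (fun x => u * c x) (fun x l => (t x l : ℤ)) (fun x => (L x : ℤ))
    (fun x => Int.natCast_nonneg _) (fun x hxP hxQ l => by
      obtain ⟨⟨k, hk⟩, h2⟩ := ht x hxP hxQ l
      refine ⟨⟨u * k - w * t x l, ?_⟩, Int.natCast_nonneg _, by exact_mod_cast h2⟩
      linear_combination u * hk + (t x l : ℤ) * huw) (fun s hs0 hs1 => by
      have h5 : ∑ x ∈ (univ.erase P).erase P', (L x : ℤ) =
          ((∑ x ∈ (univ.erase P).erase P', L x : ℕ) : ℤ) := by push_cast; rfl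
      obtain ⟨κ, hκ⟩ := hfull' s.toNat (by rw [h5] at hs1; omega)
      refine ⟨κ, ?_⟩
      have h4 : ∑ x ∈ (univ.erase P).erase P', (t x (κ x) : ℤ) =
          ((∑ x ∈ (univ.erase P).erase P', t x (κ x) : ℕ) : ℤ) := by push_cast; rfl
      rw [h4, hκ]
      omega)
  refine hres κ ?_
  have h6 : ∑ x, u * E x (κ x) = u * ∑ x, E x (κ x) := by rw [mul_sum]
  rw [h6] at hκ
  exact hu.symm.dvd_of_dvd_mul_left hκ

end Pool.Agent.Q168.PC
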