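import Pool.Agent.TH571.PCV.Block

set_option autoImplicit false
set_option maxHeartbeats 4000000

/-!
Vanishing `p`-curvature at one closed point, of residue characteristic larger than twice the sum of
the absolute values of the numerators of the exponents, implies the inequalities between the sums of
remainders of the exponents (explicit version of `Pool.Agent.TH571.PCV.pos_of_not`).
-/

namespace Pool.Agent.Q168.PC

open Finset Pool.Agent.W432.PC Pool.Agent.W280.PC Pool.Agent.TH571.PCV Polynomial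

universe u

variable {R : Type u} [CommRing R] [IsDomain R] [CharZero R] {n r : ℕ}

theorem pos_at (α : Fin n → R) (hα : ∀ i j, i ≠ j → IsUnit (α i - α j))
    (A A' : Fin n → Matrix (Fin r) (Fin r) R)
    (hA' : A' = A ∨ A' = fun j => -(A j).transpose)
    (lam : Fin n → Fin r → ℚ) (phi : Fin r → ℚ)
    (hlam : ∀ j, HasExponents (A' j) (lam j)) (hphi : HasExponents (∑ j, A' j) phi)
    (N : ℕ) (hN : 0 < N) (e : Fin n → Fin r → ℤ) (e' : Fin r → ℤ)
    (he : ∀ j l, (N : ℚ) * lam j l = e j l) (he' : ∀ l, (N : ℚ) * phi l = e' l)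
    (a : ℤ) (p : ℕ) (hp : p.Prime) (hap : (N : ℤ) ∣ a * p + 1)
    (hbig : 2 * (∑ j, ∑ l, |e j l| + ∑ l, |e' l|) < p)
    (𝔪 : Ideal R) [h𝔪 : 𝔪.IsMaximal] (hpm : (p : R) ∈ 𝔪) (hpc : PCurvZeroAt α A 𝔪)
    (x : Fin n → ℤ) :
    ∑ l, (a * e' l - ∑ j, x j) % (N : ℤ) ≤ ∑ j, ∑ l, (a * e j l - x j) % (N : ℤ) := by
  have hN0 : (0 : ℤ) < N := by exact_mod_cast hN
  have hNq : (0 : ℚ) < N := by exact_mod_cast hN
  choose σ hσ using fun j => exists_sorted a (lam j)
  obtain ⟨τ, hτ⟩ := exists_sorted a phi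
  have hmono : ∀ {x y : ℚ} {u v : ℤ}, (N : ℚ) * x = u → (N : ℚ) * y = v → lexLE a x y →
      wI N a u ≤ wI N a v := by
    intro x y u v hx hy hxy
    have h1 : wt a x ≤ wt a y := by
      rcases hxy with h | h
      · exact h.le
      · exact h.1.le
    have h2 := mul_le_mul_of_nonneg_left h1 hNq.le
    rw [wt_wI hN hx, wt_wI hN hy] at h2
    exact_mod_cast h2
  -- the degree
  have htr : ∑ j, ∑ l, e j l = ∑ l, e' l := by
    have h1 := trace_eq hlam hphi
    have h2 : (N : ℚ) * ∑ j, ∑ l, lam j l = (N : ℚ) * ∑ l, phi l := by rw [h1]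
    rw [Finset.mul_sum, Finset.mul_sum] at h2
    simp only [Finset.mul_sum, he, he'] at h2
    exact_mod_cast h2
  have hdvd : (N : ℤ) ∣ ∑ j, ∑ l, wI N a (e j l) - ∑ l, wI N a (e' l) := by
    have h1 : ∑ j, ∑ l, wI N a (e j l) - ∑ l, wI N a (e' l) =
        ∑ j, ∑ l, (wI N a (e j l) - a * e j l) - ∑ l, (wI N a (e' l) - a * e' l) := by
      simp only [Finset.sum_sub_distrib, ← Finset.mul_sum, htr]
      ring
    rw [h1]
    exact dvd_sub (Finset.dvd_sum fun j _ => Finset.dvd_sum fun l _ => wI_mod a _)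
      (Finset.dvd_sum fun l _ => wI_mod a _)
  obtain ⟨m, hm⟩ := hdvd
  rw [mul_comm] at hm
  have hperm : ∀ j, ∑ l, wI N a (e j (σ j l)) = ∑ l, wI N a (e j l) := fun j =>
    Equiv.sum_comp (σ j) (fun l => wI N a (e j l))
  have hperm' : ∑ l, wI N a (e' (τ l)) = ∑ l, wI N a (e' l) :=
    Equiv.sum_comp τ (fun l => wI N a (e' l))
  have hpos := pos_of_ineq hN (fun j l => wI N a (e j (σ j l))) (fun l => wI N a (e' (τ l)))
    (fun j l l' h => hmono (he j _) (he j _) (hσ j l l' h))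
    (fun l l' h => hmono (he' _) (he' _) (hτ l l' h))
    (fun j l => wI_nonneg hN a _) (fun j l => wI_le hN a _) (fun l => wI_nonneg hN a _)
    (fun l => wI_le hN a _) m (by simp only [hperm, hperm']; exact hm) ?_ x
  · have hmod : ∀ y z : ℤ, (wI N a y - z) % (N : ℤ) = (a * y - z) % (N : ℤ) := by
      intro y z
      refine Int.ModEq.symm (Int.modEq_iff_dvd.2 ?_)
      have h1 := wI_mod (D := N) a y
      have h2 : wI N a y - z - (a * y - z) = wI N a y - a * y := by ring
      rw [h2]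
      exact h1
    simp only [hmod] at hpos
    have h1 : ∑ l, (a * e' (τ l) - ∑ j, x j) % (N : ℤ) = ∑ l, (a * e' l - ∑ j, x j) % (N : ℤ) :=
      Equiv.sum_comp τ (fun l => (a * e' l - ∑ j, x j) % (N : ℤ))
    have h2 : ∀ j, ∑ l, (a * e j (σ j l) - x j) % (N : ℤ) = ∑ l, (a * e j l - x j) % (N : ℤ) :=
      fun j => Equiv.sum_comp (σ j) (fun l => (a * e j l - x j) % (N : ℤ))
    rw [h1, Finset.sum_congr rfl fun j _ => h2 j] at hpos
    exact hpos
  · intro q κ s hq
    by_contra hcon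
    push Not at hcon
    have hw : ∀ j l, wt a (lam j l) = (wI N a (e j l) : ℚ) / N := fun j l => by
      rw [← wt_wI hN (he j l)]; field_simp
    have hw' : ∀ l, wt a (phi l) = (wI N a (e' l) : ℚ) / N := fun l => by
      rw [← wt_wI hN (he' l)]; field_simp
    have hq' : ∑ j, ∑ l, wt a (lam j (σ j l)) - ∑ l, wt a (phi (τ l)) + ∑ j, ((κ j : ℕ) : ℚ) =
        q * r + (s : ℕ) := by
      have h1 : ∀ j, ∑ l, wt a (lam j (σ j l)) = ∑ l, wt a (lam j l) := fun j =>
        Equiv.sum_comp (σ j) (fun l => wt a (lam j l))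
      have h2 : ∑ l, wt a (phi (τ l)) = ∑ l, wt a (phi l) :=
        Equiv.sum_comp τ (fun l => wt a (phi l))
      rw [Finset.sum_congr rfl (fun j _ => h1 j), h2]
      simp only [hw, hw']
      have h3 := congrArg (fun x : ℤ => (x : ℚ)) hm
      have h4 := congrArg (fun x : ℤ => (x : ℚ)) hq
      push_cast at h3 h4
      simp only [← Finset.sum_div]
      rw [← sub_div, h3]
      have h5 : (m : ℚ) * N / N = m := by field_simp
      rw [h5]
      linarith
    -- the common bound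
    set M : ℤ := ∑ j, ∑ l, |e j l| + ∑ l, |e' l| with hMdef
    have hM : ∀ j l, |e j (σ j l)| ≤ M := by
      intro j l
      have h1 : |e j (σ j l)| ≤ ∑ l, |e j l| :=
        Finset.single_le_sum (f := fun l => |e j l|) (fun _ _ => abs_nonneg _)
          (Finset.mem_univ (σ j l))
      have h2 : ∑ l, |e j l| ≤ ∑ j, ∑ l, |e j l| :=
        Finset.single_le_sum (f := fun j => ∑ l, |e j l|)
          (fun _ _ => Finset.sum_nonneg fun _ _ => abs_nonneg _) (Finset.mem_univ j)
      have h3 : 0 ≤ ∑ l, |e' l| := Finset.sum_nonneg fun _ _ => abs_nonneg _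
      simp only [M]; linarith
    have hM' : ∀ l, |e' (τ l)| ≤ M := by
      intro l
      have h1 : |e' (τ l)| ≤ ∑ l, |e' l| :=
        Finset.single_le_sum (f := fun l => |e' l|) (fun _ _ => abs_nonneg _)
          (Finset.mem_univ (τ l))
      have h3 : 0 ≤ ∑ j, ∑ l, |e j l| :=
        Finset.sum_nonneg fun _ _ => Finset.sum_nonneg fun _ _ => abs_nonneg _
      simp only [M]; linarith
    have : Fact p.Prime := ⟨hp⟩
    obtain ⟨K, iF, iA, iC, φ, h1, h2, h3⟩ := geometric_point' hA' hα hp hpm hpc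
    obtain ⟨hh, D, W, k1, k2, k3, k4, k5, k6⟩ := weyl_point φ α A' h2 h3 hN hap
      (lam := fun j l => lam j (σ j l)) (phi := fun l => phi (τ l))
      (fun j => hasExponents_perm (hlam j) (σ j)) (hasExponents_perm hphi τ)
      (m := fun j l => e j (σ j l)) (fun j l => he j _) (m' := fun l => e' (τ l))
      (fun l => he' _) hM hM' hbig κ s q hσ hτ hq'
    obtain ⟨i₀, hi₀⟩ := Function.ne_iff.mp k3
    have hPd : (∏ j, (X - C (φ (α j))) ^ hh j : K[X]).natDegree = ∑ j, hh j :=
      natDegree_prod_pow (α := fun j => φ (α j)) hh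
    have hle : (∑ j, (hh j : ℤ)) ≤ D := by
      have h4 := natDegree_le_of_dvd (k6 i₀) hi₀
      rw [hPd] at h4
      have h5 := k5 i₀
      have h6 : ((∑ j, hh j : ℕ) : ℤ) ≤ ((W i₀).natDegree : ℤ) := by exact_mod_cast h4
      push_cast at h6
      linarith
    have hleq : (∑ j, (hh j : ℚ)) ≤ D := by exact_mod_cast hle
    rw [k2] at hleq
    simp only [k1, Finset.sum_add_distrib, ← Finset.mul_sum] at hleq
    -- multiply by N
    have h7 : (p : ℚ) * (∑ j, (wI N a (e j (σ j (κ j))) : ℚ) - q * N - wI N a (e' (τ s))) ≤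
        e' (τ s) - ∑ j, (e j (σ j (κ j)) : ℚ) := by
      have h8 : (N : ℚ) * ((p : ℚ) * ∑ j, wt a (lam j (σ j (κ j))) + ∑ j, lam j (σ j (κ j))) ≤
          (N : ℚ) * ((p : ℚ) * q + (p * wt a (phi (τ s)) + phi (τ s))) :=
        mul_le_mul_of_nonneg_left hleq hNq.le
      have h9 : (N : ℚ) * ∑ j, wt a (lam j (σ j (κ j))) =
          ∑ j, (wI N a (e j (σ j (κ j))) : ℚ) := by
        rw [Finset.mul_sum]
        exact Finset.sum_congr rfl fun j _ => wt_wI hN (he j _) a
      have h10 : (N : ℚ) * ∑ j, lam j (σ j (κ j)) = ∑ j, (e j (σ j (κ j)) : ℚ) := by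
        rw [Finset.mul_sum]
        exact Finset.sum_congr rfl fun j _ => he j _
      have h11 : (N : ℚ) * wt a (phi (τ s)) = wI N a (e' (τ s)) := wt_wI hN (he' _) a
      have h12 := he' (τ s)
      have h13 : (N : ℚ) * ((p : ℚ) * ∑ j, wt a (lam j (σ j (κ j))) + ∑ j, lam j (σ j (κ j))) =
          p * ((N : ℚ) * ∑ j, wt a (lam j (σ j (κ j)))) + (N : ℚ) * ∑ j, lam j (σ j (κ j)) := by
        ring
      have h14 : (N : ℚ) * ((p : ℚ) * q + (p * wt a (phi (τ s)) + phi (τ s))) =
          p * q * N + p * ((N : ℚ) * wt a (phi (τ s))) + (N : ℚ) * phi (τ s) := by ring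
      rw [h13, h14, h9, h10, h11, h12] at h8
      linarith
    have h8 : (p : ℤ) * (∑ j, wI N a (e j (σ j (κ j))) - q * N - wI N a (e' (τ s))) ≤
        e' (τ s) - ∑ j, e j (σ j (κ j)) := by exact_mod_cast h7
    have h9 : e' (τ s) - ∑ j, e j (σ j (κ j)) ≤ M := by
      have h10 : e' (τ s) ≤ ∑ l, |e' l| := (le_abs_self _).trans
        (Finset.single_le_sum (f := fun l => |e' l|) (fun _ _ => abs_nonneg _)
          (Finset.mem_univ (τ s)))
      have h11 : -∑ j, e j (σ j (κ j)) ≤ ∑ j, ∑ l, |e j l| := by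
        rw [← Finset.sum_neg_distrib]
        refine Finset.sum_le_sum fun j _ => ?_
        exact (neg_le_abs _).trans (Finset.single_le_sum (f := fun l => |e j l|)
          (fun _ _ => abs_nonneg _) (Finset.mem_univ (σ j (κ j))))
      simp only [M]; linarith
    have hM0 : 0 ≤ M := (abs_nonneg _).trans (hM' s)
    have h10 : (1 : ℤ) ≤ ∑ j, wI N a (e j (σ j (κ j))) - q * N - wI N a (e' (τ s)) := by
      linarith
    have hp0 : (0 : ℤ) < p := by exact_mod_cast hp.pos
    nlinarith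

/-- The first inequality, in symmetric form; `none` is the point at infinity. -/
theorem lower_at (α : Fin n → R) (hα : ∀ i j, i ≠ j → IsUnit (α i - α j))
    (A : Fin n → Matrix (Fin r) (Fin r) R) (N : ℕ) (hN : 0 < N) (E : Option (Fin n) → Fin r → ℤ)
    (hE : ∀ j, HasExponents (A j) (fun l => (E (some j) l : ℚ) / N))
    (hE' : HasExponents (∑ j, A j) (fun l => -(E none l : ℚ) / N))
    (a : ℤ) (p : ℕ) (hp : p.Prime) (hap : (N : ℤ) ∣ a * p + 1)
    (hbig : 2 * ∑ x, ∑ l, |E x l| < p)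
    (𝔪 : Ideal R) [h𝔪 : 𝔪.IsMaximal] (hpm : (p : R) ∈ 𝔪) (hpc : PCurvZeroAt α A 𝔪)
    (x : Option (Fin n) → ℤ) (hx : ∑ i, x i = 1) :
    (r : ℤ) * (N - 1) ≤ ∑ i, ∑ l, (a * E i l - x i) % (N : ℤ) := by
  have hN' : (0 : ℤ) < N := by exact_mod_cast hN
  have hNq : (N : ℚ) ≠ 0 := by exact_mod_cast hN.ne'
  have h1 := pos_at α hα A A (Or.inl rfl) _ _ hE hE' N hN (fun j => E (some j))
    (fun l => -E none l) (fun j l => by field_simp)
    (fun l => by push_cast; field_simp) a p hp hap (by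
      simp only [abs_neg]
      rw [Fintype.sum_option] at hbig
      linarith) 𝔪 hpm hpc (fun j => x (some j))
  rw [Fintype.sum_option] at hx ⊢
  have h2 : ∀ l, (a * -E none l - ∑ j : Fin n, x (some j)) % (N : ℤ) =
      (N - 1) - (a * E none l - x none) % (N : ℤ) := by
    intro l
    rw [← neg_sub_one_emod hN']
    congr 1
    linarith
  rw [Finset.sum_congr rfl fun l _ => h2 l, Finset.sum_sub_distrib, Finset.sum_const,
    Finset.card_univ, Fintype.card_fin, nsmul_eq_mul] at h1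
  linarith

/-- The dual inequality. -/
theorem upper_at (α : Fin n → R) (hα : ∀ i j, i ≠ j → IsUnit (α i - α j))
    (A : Fin n → Matrix (Fin r) (Fin r) R) (N : ℕ) (hN : 0 < N) (E : Option (Fin n) → Fin r → ℤ)
    (hE : ∀ j, HasExponents (A j) (fun l => (E (some j) l : ℚ) / N))
    (hE' : HasExponents (∑ j, A j) (fun l => -(E none l : ℚ) / N))
    (a : ℤ) (p : ℕ) (hp : p.Prime) (hap : (N : ℤ) ∣ a * p + 1)
    (hbig : 2 * ∑ x, ∑ l, |E x l| < p)
    (𝔪 : Ideal R) [h𝔪 : 𝔪.IsMaximal] (hpm : (p : R) ∈ 𝔪) (hpc : PCurvZeroAt α A 𝔪)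
    (x : Option (Fin n) → ℤ) (hx : ∑ i, x i = n) :
    ∑ i, ∑ l, (a * E i l - x i) % (N : ℤ) ≤ (n : ℤ) * (r * (N - 1)) := by
  have hN' : (0 : ℤ) < N := by exact_mod_cast hN
  have hNq : (N : ℚ) ≠ 0 := by exact_mod_cast hN.ne'
  have hsum : HasExponents (∑ j, (fun j => -(A j).transpose) j)
      (fun l => -(-(E none l : ℚ) / N)) := by
    have h3 := hasExponents_dual hE'
    have h4 : (∑ j, (fun j => -(A j).transpose) j) = -(∑ j, A j).transpose := by
      rw [Matrix.transpose_sum, ← Finset.sum_neg_distrib]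
    rw [h4]
    exact h3
  have h1 := pos_at α hα A (fun j => -(A j).transpose) (Or.inr rfl) _ _
    (fun j => hasExponents_dual (hE j)) hsum N hN
    (fun j l => -E (some j) l) (fun l => E none l)
    (fun j l => by push_cast; field_simp)
    (fun l => by field_simp) a p hp hap (by
      simp only [abs_neg]
      rw [Fintype.sum_option] at hbig
      linarith) 𝔪 hpm hpc (fun j => 1 - x (some j))
  rw [Fintype.sum_option] at hx ⊢
  have h2 : ∀ (j : Fin n) (l : Fin r), (a * -E (some j) l - (1 - x (some j))) % (N : ℤ) =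
      (N - 1) - (a * E (some j) l - x (some j)) % (N : ℤ) := by
    intro j l
    rw [← neg_sub_one_emod hN']
    congr 1
    ring
  have h3 : ∑ j : Fin n, (1 - x (some j)) = x none := by
    rw [Finset.sum_sub_distrib, Finset.sum_const, Finset.card_univ, Fintype.card_fin,
      nsmul_eq_mul]
    linarith
  rw [h3] at h1
  simp only [h2, Finset.sum_sub_distrib, Finset.sum_const, Finset.card_univ, Fintype.card_fin,
    nsmul_eq_mul] at h1
  linarith

end Pool.Agent.Q168.PC
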