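import Pool.Agent.Q168.PC.Point
import Pool.Agent.Q168.PC.Arith

set_option autoImplicit false
set_option maxHeartbeats 4000000

/-!
Fuchsian systems whose exponents outside two points fill an interval.
-/

namespace Pool.Agent.Q168.PC

open Finset Pool.Agent.W432.PC Polynomial

lemma exists_split {ι : Type*} [DecidableEq ι] (T : Finset ι) (L : ι → ℕ) :
    ∀ s : ℕ, s ≤ ∑ i ∈ T, L i → ∃ f : ι → ℕ, (∀ i, f i ≤ L i) ∧ ∑ i ∈ T, f i = s := by
  induction T using Finset.induction_on with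
  | empty =>
    intro s hs
    refine ⟨fun _ => 0, fun _ => Nat.zero_le _, ?_⟩
    simp only [sum_empty] at hs ⊢
    omega
  | insert a T ha ih =>
    intro s hs
    rw [sum_insert ha] at hs
    obtain ⟨f, hf, hs'⟩ := ih (s - min s (L a)) (by omega)
    refine ⟨fun i => if i = a then min s (L a) else f i, fun i => ?_, ?_⟩
    · by_cases h : i = a
      · subst h
        simp only [if_true]
        exact min_le_right _ _
      · simp only [if_neg h]
        exact hf i
    · rw [sum_insert ha]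
      simp only [if_true]
      have h1 : ∑ i ∈ T, (if i = a then min s (L a) else f i) = ∑ i ∈ T, f i := by
        refine sum_congr rfl fun i hi => ?_
        rw [if_neg]
        rintro rfl
        exact ha hi
      rw [h1, hs']
      omega

/-- The two alternatives for the hypothesis on the exponents outside `P` and `Q`. -/
lemma full_of {ι : Type*} [Fintype ι] [DecidableEq ι] {r : ℕ} [Nonempty (Fin r)] {P Q : ι}
    {t : ι → Fin r → ℕ} {L : ι → ℕ}
    (h : (∀ x, x ≠ P → x ≠ Q → ∀ j ≤ L x, ∃ l, t x l = j) ∨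
      ∀ s ≤ ∑ x ∈ (univ.erase P).erase Q, L x,
        ∃ κ : ι → Fin r, ∑ x ∈ (univ.erase P).erase Q, t x (κ x) = s) :
    ∀ s ≤ ∑ x ∈ (univ.erase P).erase Q, L x,
        ∃ κ : ι → Fin r, ∑ x ∈ (univ.erase P).erase Q, t x (κ x) = s := by
  classical
  rcases h with h | h
  · intro s hs
    obtain ⟨f, hf, hs'⟩ := exists_split _ L s hs
    have h1 : ∀ x, ∃ l : Fin r, x ≠ P → x ≠ Q → t x l = f x := by
      intro x
      by_cases hx : x ≠ P ∧ x ≠ Q
      · obtain ⟨l, hl⟩ := h x hx.1 hx.2 (f x) (hf x)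
        exact ⟨l, fun _ _ => hl⟩
      · obtain ⟨l⟩ := (inferInstance : Nonempty (Fin r))
        exact ⟨l, fun h2 h3 => absurd ⟨h2, h3⟩ hx⟩
    choose κ hκ using h1
    refine ⟨κ, ?_⟩
    rw [← hs']
    refine sum_congr rfl fun x hx => ?_
    exact hκ x (mem_erase.1 (mem_erase.1 hx).2).1 (mem_erase.1 hx).1
  · exact h

universe u

variable {R : Type u} [CommRing R] [IsDomain R] [CharZero R] {n r : ℕ}

theorem sys_main (α : Fin n → R) (hα : ∀ i j, i ≠ j → IsUnit (α i - α j))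
    (hr : 0 < r)
    (A : Fin n → Matrix (Fin r) (Fin r) R) (N : ℕ) (hN : 0 < N) (E : Option (Fin n) → Fin r → ℤ)
    (hE : ∀ j, HasExponents (A j) (fun l => (E (some j) l : ℚ) / N))
    (hE' : HasExponents (∑ j, A j) (fun l => -(E none l : ℚ) / N))
    (hres : ∀ κ : Option (Fin n) → Fin r, ¬ (N : ℤ) ∣ ∑ x, E x (κ x))
    (d : ℤ) (hd : IsCoprime d (N : ℤ)) (P Q : Option (Fin n)) (hPQ : P ≠ Q)
    (c : Option (Fin n) → ℤ) (t : Option (Fin n) → Fin r → ℕ) (L : Option (Fin n) → ℕ)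
    (ht : ∀ x, x ≠ P → x ≠ Q → ∀ l, (N : ℤ) ∣ E x l - (c x + d * t x l) ∧ t x l ≤ L x)
    (hfull : (∀ x, x ≠ P → x ≠ Q → ∀ j ≤ L x, ∃ l, t x l = j) ∨
      ∀ s ≤ ∑ x ∈ (univ.erase P).erase Q, L x,
        ∃ κ : Option (Fin n) → Fin r, ∑ x ∈ (univ.erase P).erase Q, t x (κ x) = s)
    (p : ℕ) (hp : p.Prime) (hbig : 2 * ∑ x, ∑ l, |E x l| < p)
    (hpd : (N : ℤ) ∣ p - d ∨ (N : ℤ) ∣ p + d)
    (𝔪 : Ideal R) [h𝔪 : 𝔪.IsMaximal] (hpm : (p : R) ∈ 𝔪) : ¬ PCurvZeroAt α A 𝔪 := by
  intro hpc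
  have hN' : (0 : ℤ) < N := by exact_mod_cast hN
  have : Nonempty (Fin r) := ⟨⟨0, hr⟩⟩
  have hfull' := full_of hfull
  obtain ⟨u, w, huw⟩ := hd
  have hcard : Fintype.card (Option (Fin n)) = n + 1 := by simp
  -- the sum of the lengths
  rcases hpd with hpd | hpd
  · -- p = d : multiply by `-u`
    have hap : (N : ℤ) ∣ (-u) * p + 1 := by
      obtain ⟨k, hk⟩ := hpd
      refine ⟨-u * k + w, ?_⟩
      have : (p : ℤ) = d + N * k := by linarith
      rw [this]
      linear_combination -huw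
    obtain ⟨κ, hκ⟩ := resonance hcard hN' (fun x l => -u * E x l)
      (fun x hx => lower_at α hα A N hN E hE hE' (-u) p hp hap hbig 𝔪 hpm hpc x hx)
      (fun x hx => upper_at α hα A N hN E hE hE' (-u) p hp hap hbig 𝔪 hpm hpc x hx)
      hPQ (fun x => -u * c x - L x) (fun x l => (L x : ℤ) - t x l) (fun x => (L x : ℤ))
      (fun x => Int.natCast_nonneg _) (fun x hxP hxQ l => by
        obtain ⟨⟨k, hk⟩, h2⟩ := ht x hxP hxQ l
        refine ⟨⟨-u * k + w * t x l, ?_⟩, ?_, ?_⟩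
        · linear_combination -u * hk - (t x l : ℤ) * huw
        · have : (t x l : ℤ) ≤ L x := by exact_mod_cast h2
          linarith
        · have : (0 : ℤ) ≤ t x l := Int.natCast_nonneg _
          linarith) (fun s hs0 hs1 => by
        have h3 : (∑ x ∈ (univ.erase P).erase Q, L x : ℕ) - s.toNat ≤
            ∑ x ∈ (univ.erase P).erase Q, L x := Nat.sub_le _ _
        obtain ⟨κ, hκ⟩ := hfull' _ h3
        refine ⟨κ, ?_⟩
        rw [sum_sub_distrib]
        have h4 : ∑ x ∈ (univ.erase P).erase Q, (t x (κ x) : ℤ) =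
            ((∑ x ∈ (univ.erase P).erase Q, t x (κ x) : ℕ) : ℤ) := by push_cast; rfl
        have h5 : ∑ x ∈ (univ.erase P).erase Q, (L x : ℤ) =
            ((∑ x ∈ (univ.erase P).erase Q, L x : ℕ) : ℤ) := by push_cast; rfl
        rw [h4, hκ]
        rw [h5] at hs1 ⊢
        omega)
    refine hres κ ?_
    have h6 : ∑ x, -u * E x (κ x) = -u * ∑ x, E x (κ x) := by rw [mul_sum]
    rw [h6] at hκ
    have hcop : IsCoprime (N : ℤ) (-u) := by
      refine IsCoprime.symm ⟨-d, w, ?_⟩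
      linear_combination huw
    exact hcop.dvd_of_dvd_mul_left hκ
  · -- p = -d : multiply by `u`
    have hap : (N : ℤ) ∣ u * p + 1 := by
      obtain ⟨k, hk⟩ := hpd
      refine ⟨u * k + w, ?_⟩
      have : (p : ℤ) = -d + N * k := by linarith
      rw [this]
      linear_combination -huw
    obtain ⟨κ, hκ⟩ := resonance hcard hN' (fun x l => u * E x l)
      (fun x hx => lower_at α hα A N hN E hE hE' u p hp hap hbig 𝔪 hpm hpc x hx)
      (fun x hx => upper_at α hα A N hN E hE hE' u p hp hap hbig 𝔪 hpm hpc x hx)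
      hPQ (fun x => u * c x) (fun x l => (t x l : ℤ)) (fun x => (L x : ℤ))
      (fun x => Int.natCast_nonneg _) (fun x hxP hxQ l => by
        obtain ⟨⟨k, hk⟩, h2⟩ := ht x hxP hxQ l
        refine ⟨⟨u * k - w * t x l, ?_⟩, Int.natCast_nonneg _, by exact_mod_cast h2⟩
        linear_combination u * hk + (t x l : ℤ) * huw) (fun s hs0 hs1 => by
        have h5 : ∑ x ∈ (univ.erase P).erase Q, (L x : ℤ) =
            ((∑ x ∈ (univ.erase P).erase Q, L x : ℕ) : ℤ) := by push_cast; rfl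
        obtain ⟨κ, hκ⟩ := hfull' s.toNat (by rw [h5] at hs1; omega)
        refine ⟨κ, ?_⟩
        have h4 : ∑ x ∈ (univ.erase P).erase Q, (t x (κ x) : ℤ) =
            ((∑ x ∈ (univ.erase P).erase Q, t x (κ x) : ℕ) : ℤ) := by push_cast; rfl
        rw [h4, hκ]
        omega)
    refine hres κ ?_
    have h6 : ∑ x, u * E x (κ x) = u * ∑ x, E x (κ x) := by rw [mul_sum]
    rw [h6] at hκ
    have hcop : IsCoprime (N : ℤ) u := by
      refine IsCoprime.symm ⟨d, w, ?_⟩
      linear_combination huw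
    exact hcop.dvd_of_dvd_mul_left hκ

end Pool.Agent.Q168.PC
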