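import Mathlib

set_option autoImplicit false
set_option maxHeartbeats 4000000

/-!
Short vectors with odd weight in a lattice of rank two.
-/

namespace Pool.Agent.Q168.PC

/-- parity -/
lemma par {r s p q x y N : ℤ} (hN : N % 2 = 1) (hrs : r % 2 = 1 ∨ s % 2 = 1)
    (hpq : p % 2 = 1 ∨ q % 2 = 1) (h1 : (r * p + s * q) % 2 = 0) :
    (r % 2 = q % 2 ∧ s % 2 = p % 2) ∧ (q * x - p * y = N → (r * x + s * y) % 2 = 1) := by
  have hr := Int.emod_two_eq_zero_or_one r
  have hs := Int.emod_two_eq_zero_or_one s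
  have hp := Int.emod_two_eq_zero_or_one p
  have hq := Int.emod_two_eq_zero_or_one q
  have key : r % 2 = q % 2 ∧ s % 2 = p % 2 := by
    rw [Int.add_emod, Int.mul_emod r p, Int.mul_emod s q] at h1
    rcases hr with hr | hr <;> rcases hs with hs | hs <;> rcases hp with hp | hp <;>
      rcases hq with hq | hq <;> rw [hr, hs, hp, hq] at h1 <;> omega
  refine ⟨key, fun h => ?_⟩
  have h2 : (q * x - p * y) % 2 = 1 := by rw [h]; exact hN
  have hx := Int.emod_two_eq_zero_or_one x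
  have hy := Int.emod_two_eq_zero_or_one y
  rw [Int.sub_emod, Int.mul_emod q x, Int.mul_emod p y] at h2
  rw [Int.add_emod, Int.mul_emod r x, Int.mul_emod s y, key.1, key.2]
  rcases hp with hp | hp <;> rcases hq with hq | hq <;> rcases hx with hx | hx <;>
    rcases hy with hy | hy <;> rw [hp, hq, hx, hy] at h2 ⊢ <;> omega

/-- a solution of `q x - p y = N` with `2 |y| ≤ |q|` -/
lemma near {p q N : ℤ} (hq : q ≠ 0) (hcop : IsCoprime p q) :
    ∃ x y : ℤ, q * x - p * y = N ∧ 2 * |y| ≤ |q| := by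
  obtain ⟨u, v, huv⟩ := hcop
  -- `q (v N) - p (-u N) = N`
  set y0 : ℤ := -u * N with hy0
  set t : ℤ := round ((y0 : ℚ) / q) with ht
  refine ⟨v * N - t * p, y0 - t * q, ?_, ?_⟩
  · rw [hy0]
    linear_combination N * huv
  · have h1 := abs_sub_round ((y0 : ℚ) / q)
    have hqq : (q : ℚ) ≠ 0 := by exact_mod_cast hq
    have hqa : (0 : ℚ) < |(q : ℚ)| := abs_pos.2 hqq
    have h2 : |((y0 - t * q : ℤ) : ℚ)| ≤ 1 / 2 * |(q : ℚ)| := by
      have h3 : ((y0 - t * q : ℤ) : ℚ) = ((y0 : ℚ) / q - t) * q := by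
        push_cast
        field_simp
      rw [h3, abs_mul]
      exact mul_le_mul_of_nonneg_right h1 hqa.le
    have h4 : ((2 * |y0 - t * q| : ℤ) : ℚ) ≤ ((|q| : ℤ) : ℚ) := by
      push_cast at h2 ⊢
      linarith
    exact_mod_cast h4

/-- the norm of the solution -/
lemma near_norm {r s p q x y N W : ℤ} (hr : 0 < r) (hs : 0 < s) (hN : 0 < N)
    (hW : W = r * |p| + s * |q|) (hWN : W < N)
    (h1 : q * x - p * y = N) (h2 : 2 * |y| ≤ |q|)
    (h3 : (4 * r * s ≤ W ∧ W ≤ 2 * (s * |q|)) ∨ (W < 4 * r * s ∧ r + 1 ≤ |q|))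
    (hN2 : 2 * r * s * (r + s) < N) : r * |x| + s * |y| < N := by
  have hq0 : 0 ≤ |q| := abs_nonneg q
  have hp0 : 0 ≤ |p| := abs_nonneg p
  have hx0 : 0 ≤ |x| := abs_nonneg x
  have hy0 : 0 ≤ |y| := abs_nonneg y
  have h4 : |q| * |x| ≤ N + |p| * |y| := by
    rw [← abs_mul, ← abs_mul]
    have h5 : q * x = N + p * y := by linarith
    rw [h5]
    calc |N + p * y| ≤ |N| + |p * y| := abs_add_le _ _
      _ = N + |p * y| := by rw [abs_of_pos hN]
  have hrs : 0 < r * s := mul_pos hr hs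
  have hN4 : 4 * (r * s) < N := by nlinarith
  -- `2 |q| (r |x| + s |y|) ≤ 2 r N + |q| W`
  have h5 : 2 * |q| * (r * |x| + s * |y|) ≤ 2 * r * N + |q| * W := by
    have h6 : 2 * (r * (|q| * |x|)) ≤ 2 * (r * (N + |p| * |y|)) := by
      have := mul_le_mul_of_nonneg_left h4 hr.le
      linarith
    have h7 : r * |p| * (2 * |y|) ≤ r * |p| * |q| :=
      mul_le_mul_of_nonneg_left h2 (mul_nonneg hr.le hp0)
    have h8 : s * |q| * (2 * |y|) ≤ s * |q| * |q| :=
      mul_le_mul_of_nonneg_left h2 (mul_nonneg hs.le hq0)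
    rw [hW]
    nlinarith
  have hqpos : 0 < |q| := by
    rcases h3 with ⟨h6, h7⟩ | ⟨-, h7⟩
    · by_contra hcon
      have : |q| = 0 := by omega
      rw [this] at h7
      nlinarith
    · omega
  have h6 : 2 * r * N < |q| * (2 * N - W) := by
    rcases h3 with ⟨h7, h8⟩ | ⟨h7, h8⟩
    · -- W (2 N - W) > 4 r s N
      have h9 : 4 * r * s * N < W * (2 * N - W) := by
        have h10 : 0 ≤ (W - 4 * r * s) * (N - W) := mul_nonneg (by linarith) (by linarith)
        have h11 : 0 < (4 * r * s) := by nlinarith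
        have h12 : 0 ≤ (W - 4 * (r * s)) * (N - 4 * (r * s)) :=
          mul_nonneg (by linarith) (by linarith)
        nlinarith
      have h10 : W * (2 * N - W) ≤ 2 * (s * |q|) * (2 * N - W) :=
        mul_le_mul_of_nonneg_right h8 (by linarith)
      have h11 : s * (2 * r * N) * 2 < s * (|q| * (2 * N - W)) * 2 := by nlinarith
      have h12 : s * (2 * r * N) < s * (|q| * (2 * N - W)) := by linarith
      exact lt_of_mul_lt_mul_left h12 hs.le
    · have h9 : (r + 1) * (2 * N - W) ≤ |q| * (2 * N - W) :=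
        mul_le_mul_of_nonneg_right h8 (by linarith)
      have h10 : (r + 1) * (2 * N - 4 * r * s) ≤ (r + 1) * (2 * N - W) :=
        mul_le_mul_of_nonneg_left (by linarith) (by linarith)
      have h11 : 2 * r * s * (r + 1) ≤ 2 * r * s * (r + s) :=
        mul_le_mul_of_nonneg_left (by linarith) (by nlinarith)
      nlinarith
  have h7 : 2 * |q| * (r * |x| + s * |y|) < 2 * |q| * N := by nlinarith
  exact lt_of_mul_lt_mul_left h7 (by linarith)

/-- Short odd vectors. -/
theorem two_values {N : ℕ} (hN : N.Prime) (hN2 : N ≠ 2) {r s : ℤ} (hr : 0 < r) (hs : 0 < s)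
    (hbig : 2 * r * s * (r + s) < N) {d1 d2 : ℤ} (h1 : ¬ (N : ℤ) ∣ d1) (h2 : ¬ (N : ℤ) ∣ d2)
    (hres : ∀ i j : ℤ, |i| ≤ r → |j| ≤ s → i % 2 = r % 2 → j % 2 = s % 2 →
      ¬ (N : ℤ) ∣ i * d1 + j * d2) :
    ∃ u X Y : ℤ, ¬ (N : ℤ) ∣ u ∧ (N : ℤ) ∣ X - u * d1 ∧ (N : ℤ) ∣ Y - u * d2 ∧
      r * |X| + s * |Y| < N ∧ (r * X + s * Y) % 2 = 1 := by
  have hNp : Prime (N : ℤ) := Nat.prime_iff_prime_int.1 hN
  have hN0 : (0 : ℤ) < N := by exact_mod_cast hN.pos
  have hNodd : (N : ℤ) % 2 = 1 := by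
    have := hN.eq_two_or_odd
    omega
  have hcop1 : IsCoprime d1 (N : ℤ) := by
    rw [isCoprime_comm]
    exact (Prime.coprime_iff_not_dvd hNp).2 h1
  obtain ⟨e1, w1, he1⟩ := hcop1
  -- `b = d2 / d1`
  set b : ℤ := e1 * d2 with hb
  have hrs : 0 < r * s := mul_pos hr hs
  have hN4 : 4 * (r * s) < N := by nlinarith
  -- from a vector of the lattice to the multiplier
  have fin : ∀ X Y : ℤ, (N : ℤ) ∣ Y - b * X → r * |X| + s * |Y| < N →
      (r * X + s * Y) % 2 = 1 → ∃ u X Y : ℤ, ¬ (N : ℤ) ∣ u ∧ (N : ℤ) ∣ X - u * d1 ∧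
      (N : ℤ) ∣ Y - u * d2 ∧ r * |X| + s * |Y| < N ∧ (r * X + s * Y) % 2 = 1 := by
    rintro X Y ⟨k, hk⟩ hn hodd
    refine ⟨e1 * X, X, Y, ?_, ⟨w1 * X, ?_⟩, ⟨k, ?_⟩, hn, hodd⟩
    · intro hd
      have h3 : (N : ℤ) ∣ X := by
        obtain ⟨z, hz⟩ := hd
        refine ⟨z * d1 + w1 * X, ?_⟩
        linear_combination d1 * hz - X * he1
      have h4 : (N : ℤ) ∣ Y := by
        obtain ⟨z, hz⟩ := h3
        exact ⟨k + b * z, by linear_combination hk + b * hz⟩
      have hX : X = 0 := by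
        refine Int.eq_zero_of_abs_lt_dvd h3 ?_
        have := abs_nonneg Y
        have := abs_nonneg X
        nlinarith
      have hY : Y = 0 := by
        refine Int.eq_zero_of_abs_lt_dvd h4 ?_
        have := abs_nonneg Y
        have := abs_nonneg X
        nlinarith
      rw [hX, hY] at hodd
      simp at hodd
    · linear_combination -X * he1
    · linear_combination hk
  -- a short vector
  obtain ⟨j, k, hk0, hk1, hjk⟩ := Real.exists_int_int_abs_mul_sub_le ((b : ℝ) / N)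
    (n := (2 * s - 1).toNat) (by omega)
  have hcast : (((2 * s - 1).toNat : ℕ) : ℝ) = 2 * (s : ℝ) - 1 := by
    have h3 : (((2 * s - 1).toNat : ℕ) : ℤ) = 2 * s - 1 := Int.toNat_of_nonneg (by omega)
    have h4 : ((((2 * s - 1).toNat : ℕ) : ℤ) : ℝ) = ((2 * s - 1 : ℤ) : ℝ) := by rw [h3]
    rw [Int.cast_natCast] at h4
    rw [h4]
    push_cast
    ring
  have hk1' : k ≤ 2 * s - 1 := by
    have : (((2 * s - 1).toNat : ℕ) : ℤ) = 2 * s - 1 := Int.toNat_of_nonneg (by omega)
    rw [this] at hk1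
    exact hk1
  set q0 : ℤ := k * b - j * N with hq0
  have hq0b : 2 * s * |q0| ≤ N := by
    have hNr : (0 : ℝ) < N := by exact_mod_cast hN0
    have hsr : (0 : ℝ) < s := by exact_mod_cast hs
    rw [hcast] at hjk
    have h3 : |((k * b - j * N : ℤ) : ℝ)| ≤ N / (2 * s) := by
      have h4 : ((k * b - j * N : ℤ) : ℝ) = (k * ((b : ℝ) / N) - j) * N := by
        push_cast
        field_simp
      rw [h4, abs_mul, abs_of_pos hNr]
      calc |(k : ℝ) * ((b : ℝ) / N) - j| * N ≤ 1 / (2 * (s : ℝ) - 1 + 1) * N :=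
            mul_le_mul_of_nonneg_right hjk hNr.le
        _ = N / (2 * s) := by
            rw [sub_add_cancel]
            ring
    rw [le_div_iff₀ (by positivity)] at h3
    have h5 : ((2 * s * |q0| : ℤ) : ℝ) ≤ ((N : ℤ) : ℝ) := by
      rw [hq0]
      push_cast at h3 ⊢
      linarith
    exact_mod_cast h5
  -- make it primitive
  obtain ⟨g, p, q, hg0, hcop, hkp, hqq⟩ : ∃ g p q : ℤ, 0 < g ∧ IsCoprime p q ∧ k = g * p ∧
      q0 = g * q := by
    have hgpos : 0 < Int.gcd k q0 := Int.gcd_pos_of_ne_zero_left _ hk0.ne'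
    obtain ⟨a, ha⟩ := Int.gcd_dvd_left k q0
    obtain ⟨c, hc⟩ := Int.gcd_dvd_right k q0
    refine ⟨Int.gcd k q0, a, c, by exact_mod_cast hgpos, ?_, ha, hc⟩
    rw [Int.isCoprime_iff_gcd_eq_one]
    have h3 : (Int.gcd k q0 : ℤ) ≠ 0 := by exact_mod_cast hgpos.ne'
    have h4 := Int.gcd_mul_left (Int.gcd k q0 : ℤ) a c
    rw [← ha, ← hc] at h4
    simp only [Int.natAbs_natCast] at h4
    have h5 : Int.gcd k q0 * 1 = Int.gcd k q0 * Int.gcd a c := by rw [mul_one]; exact h4
    exact (Nat.eq_of_mul_eq_mul_left hgpos h5).symm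
  have hp0 : 0 < p := by
    rw [hkp] at hk0
    exact (mul_pos_iff_of_pos_left hg0).1 hk0
  have hpk : p ≤ k := by rw [hkp]; nlinarith
  have hqa : |q| ≤ |q0| := by
    rw [hqq, abs_mul, abs_of_pos hg0]
    have := abs_nonneg q
    nlinarith
  have hgN : ¬ (N : ℤ) ∣ g := by
    intro hd
    have h3 := Int.le_of_dvd hg0 hd
    have h4 : g ≤ k := by rw [hkp]; nlinarith
    nlinarith
  have hpq : (N : ℤ) ∣ q - b * p := by
    have h3 : (N : ℤ) ∣ g * (q - b * p) := by
      refine ⟨-j, ?_⟩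
      linear_combination -hqq + hq0 + b * hkp
    exact (hNp.dvd_or_dvd h3).resolve_left hgN
  set W : ℤ := r * |p| + s * |q| with hW
  have hWN : W < N := by
    have h3 : |p| = p := abs_of_pos hp0
    rw [hW, h3]
    have h4 : r * p ≤ r * (2 * s - 1) := mul_le_mul_of_nonneg_left (by linarith) hr.le
    have h5 : s * |q| ≤ s * |q0| := mul_le_mul_of_nonneg_left hqa hs.le
    nlinarith
  rcases Int.emod_two_eq_zero_or_one (r * p + s * q) with hev | hodd
  · -- the short vector is even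
    have hrs2 : r % 2 = 1 ∨ s % 2 = 1 := by
      by_contra hcon
      push Not at hcon
      have h3 : r % 2 = 0 := by have := Int.emod_two_eq_zero_or_one r; omega
      have h4 : s % 2 = 0 := by have := Int.emod_two_eq_zero_or_one s; omega
      refine hres 0 0 (by simpa using hr.le) (by simpa using hs.le) (by simpa using h3.symm)
        (by simpa using h4.symm) ?_
      simp
    have hpq2 : p % 2 = 1 ∨ q % 2 = 1 := by
      by_contra hcon
      push Not at hcon
      have h3 : p % 2 = 0 := by have := Int.emod_two_eq_zero_or_one p; omega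
      have h4 : q % 2 = 0 := by have := Int.emod_two_eq_zero_or_one q; omega
      obtain ⟨u, v, huv⟩ := hcop
      obtain ⟨p', hp'⟩ := Int.dvd_of_emod_eq_zero h3
      obtain ⟨q', hq'⟩ := Int.dvd_of_emod_eq_zero h4
      rw [hp', hq'] at huv
      have h5 : 2 * (u * p' + v * q') = 1 := by linarith
      omega
    have hpar := fun x y => par (x := x) (y := y) hNodd hrs2 hpq2 hev
    obtain ⟨hrq, hsp⟩ := (hpar 0 0).1
    -- not both small
    have hns : r + 1 ≤ |q| ∨ s + 1 ≤ |p| := by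
      by_contra hcon
      push Not at hcon
      refine hres q (-p) (by omega) (by rw [abs_neg]; omega) hrq.symm (by
        rw [Int.neg_emod_two]; exact hsp.symm) ?_
      -- N ∣ q d1 - p d2
      obtain ⟨z, hz⟩ := hpq
      refine ⟨z * d1 - w1 * d2 * p, ?_⟩
      rw [hb] at hz
      linear_combination d1 * hz + p * d2 * he1
    -- choose the side
    have hside : ((4 * r * s ≤ W ∧ W ≤ 2 * (s * |q|)) ∨ (W < 4 * r * s ∧ r + 1 ≤ |q|)) ∨
        ((4 * s * r ≤ W ∧ W ≤ 2 * (r * |p|)) ∨ (W < 4 * s * r ∧ s + 1 ≤ |p|)) := by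
      have h3 : 4 * r * s = 4 * s * r := by ring
      rcases lt_or_ge W (4 * r * s) with h4 | h4
      · rcases hns with h5 | h5
        · exact Or.inl (Or.inr ⟨h4, h5⟩)
        · exact Or.inr (Or.inr ⟨by linarith, h5⟩)
      · rcases le_total (r * |p|) (s * |q|) with h5 | h5
        · exact Or.inl (Or.inl ⟨h4, by rw [hW]; linarith⟩)
        · exact Or.inr (Or.inl ⟨by linarith, by rw [hW]; linarith⟩)
    have hmem : ∀ x y : ℤ, q * x - p * y = N → (N : ℤ) ∣ y - b * x := by
      intro x y hxy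
      -- `p (y - b x) = q x - N - b p x = (q - b p) x - N`
      have h3 : (N : ℤ) ∣ p * (y - b * x) := by
        obtain ⟨z, hz⟩ := hpq
        refine ⟨z * x - 1, ?_⟩
        linear_combination -hxy + x * hz
      refine (hNp.dvd_or_dvd h3).resolve_left fun hd => ?_
      have h4 := Int.le_of_dvd hp0 hd
      nlinarith
    rcases hside with hside | hside
    · have hq : q ≠ 0 := by
        rintro rfl
        rw [abs_zero] at hside
        rcases hside with ⟨h3, h4⟩ | ⟨-, h4⟩
        · nlinarith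
        · omega
      obtain ⟨x, y, hxy, hy⟩ := near (N := (N : ℤ)) hq hcop
      exact fin x y (hmem x y hxy)
        (near_norm hr hs hN0 hW hWN hxy hy hside hbig) ((hpar x y).2 hxy)
    · obtain ⟨y, x, hxy, hx⟩ := near (N := -(N : ℤ)) hp0.ne' hcop.symm
      -- p y - q x = -N
      have hxy' : q * x - p * y = N := by linarith
      have h3 : p * (-y) - q * (-x) = N := by linarith
      have h4 := near_norm hs hr hN0 (W := W) (p := q) (q := p) (x := -y) (y := -x)
        (by rw [hW]; ring) hWN h3 (by rw [abs_neg]; exact hx) hside (by linarith)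
      rw [abs_neg, abs_neg] at h4
      exact fin x y (hmem x y hxy') (by linarith) ((hpar x y).2 hxy')
  · exact fin p q hpq hWN hodd

end Pool.Agent.Q168.PC
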