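import Pool.Agent.Q168.PC.TwoLift
import Pool.Agent.Q168.PC.Op
import Pool.Agent.TH141.PC.Lift

set_option autoImplicit false
set_option maxHeartbeats 4000000

/-!
Systems and operators with small lifts of the exponents.
-/

namespace Pool.Agent.Q168.PC

open Finset Polynomial Pool.Agent.W280.PC Pool.Agent.W432.PC Pool.Agent.TH141.PC

universe u

/-- systems -/
theorem bad_sys {R : Type u} [CommRing R] [IsDomain R] [CharZero R]
    {n r : ℕ} (hr : 0 < r) (α : Fin n → R) (hα : ∀ i j, i ≠ j → IsUnit (α i - α j))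
    (A : Fin n → Matrix (Fin r) (Fin r) R) (N : ℕ) (hN : 1 < N) (E : Option (Fin n) → Fin r → ℤ)
    (hE : ∀ j, HasExponents (A j) (fun l => (E (some j) l : ℚ) / N))
    (hE' : HasExponents (∑ j, A j) (fun l => -(E none l : ℚ) / N))
    (hres : ∀ κ : Option (Fin n) → Fin r, ¬ (N : ℤ) ∣ ∑ x, E x (κ x))
    (a : ℤ) (ha : IsCoprime a (N : ℤ)) (y : Option (Fin n) → Fin r → ℤ) (c : ℤ)
    (hy : ∀ x l, (N : ℤ) ∣ y x l - a * E x l)
    (hc : ∀ κ : Option (Fin n) → Fin r,
      c * N < ∑ x, y x (κ x) ∧ ∑ x, y x (κ x) < (c + 1) * N) :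
    BadClass α A N := by
  refine bad_of_lift hr α hα A N hN (fun j => E (some j)) (fun l => -E none l) hE
    (by simpa using hE') (fun κ t h => hres (fun x => x.elim t κ) ?_) a ha
    (fun j l => y (some j) l) (fun l => -(y none l - c * N)) (fun j l => hy _ _)
    (fun l => ?_) (fun κ t => ?_)
  · rw [Fintype.sum_option]
    simpa [add_comm] using h
  · have h5 := hy none l
    have h6 : -(y none l - c * N) - a * -E none l = -(y none l - a * E none l) + c * N := by ring
    rw [h6]
    exact dvd_add ((dvd_neg).2 h5) (Dvd.intro_left c rfl)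
  · have h5 := hc (fun x => x.elim t κ)
    rw [Fintype.sum_option] at h5
    simp only [Option.elim] at h5
    constructor
    · linarith [h5.1]
    · linarith [h5.2]

end Pool.Agent.Q168.PC

namespace Pool.Agent.Q168.PC

open Finset Polynomial Pool.Agent.W280.PC Pool.Agent.W432.WB Pool.Agent.TH829.PC
open Pool.Agent.W432.PC (wt lexLE)
open Pool.Agent.TH141.PC (lift_viol)

universe u

/-- operators -/
theorem bad_op {F : Type u} [Field F] [CharZero F] {m n : ℕ} (hm : 0 < m) (hn : 0 < n)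
    (b : Fin (n + 1) → ℤ[X]) (hb : b (Fin.last n) ≠ 0) (α : Fin m → F) (Q : Fin (n + 1) → F[X])
    (hF : IsFuchs b α Q) (N : ℕ) (hN : 1 < N) (E : Option (Fin m) → Fin n → ℤ)
    (hE : HasExps α Q (fun j l => (E (some j) l : ℚ) / N) (fun l => -(E none l : ℚ) / N))
    (hres : ∀ κ : Option (Fin m) → Fin n, ¬ (N : ℤ) ∣ ∑ x, E x (κ x))
    (a : ℤ) (ha : IsCoprime a (N : ℤ)) (y : Option (Fin m) → Fin n → ℤ) (c : ℤ)
    (hy : ∀ x l, (N : ℤ) ∣ y x l - a * E x l)
    (hc : ∀ κ : Option (Fin m) → Fin n,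
      c * N < ∑ x, y x (κ x) ∧ ∑ x, y x (κ x) < (c + 1) * N) :
    ∃ P₀ : ℕ, ∀ p : ℕ, P₀ < p → (N : ℤ) ∣ a * p + 1 → ∀ _hp : Fact p.Prime, ¬ FullMod b p := by
  by_contra hno
  have hN0 : 0 < N := by omega
  have hN' : (0 : ℤ) < N := by exact_mod_cast hN0
  have hNq : (N : ℚ) ≠ 0 := by exact_mod_cast hN0.ne'
  set K : ℤ := (((n - 1) * (m - 1) : ℕ) : ℤ) with hK
  set e' : Fin n → ℤ := fun l => -E none l + N * K with he'
  have hres' : ∀ (κ : Fin m → Fin n) (s : Fin n), ¬ (N : ℤ) ∣ ∑ j, E (some j) (κ j) - e' s := by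
    intro κ s hdvd
    refine hres (fun x => x.elim s κ) ?_
    rw [Fintype.sum_option]
    simp only [Option.elim]
    have e1 : E none s + ∑ j, E (some j) (κ j) = ∑ j, E (some j) (κ j) - e' s + N * K := by
      simp only [he']
      ring
    rw [e1]
    exact dvd_add hdvd (Dvd.intro _ rfl)
  obtain ⟨σ, τ, hσ, hτ, hI⟩ := ineq_op hm hn b hb α Q hF _ _ hE N hN
    (fun j => E (some j)) e' (fun j l => by field_simp) (fun l => by
      simp only [he', hK]
      push_cast
      field_simp) a ha hres' hno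
  have hfu := fuchs_int hm hn hF hE (N := N) (mu := fun (j : Fin m) (l : Fin n) => E (some j) l)
    (mu' := fun l : Fin n => -E none l) (fun j l => by field_simp) (fun l => by push_cast; field_simp)
  obtain ⟨M, q, κ, s, hM, hq, hlt⟩ := lift_viol hN0 hn (fun j l => wI N a (E (some j) (σ j l)))
    (fun l => wI N a (e' (τ l))) hσ hτ (fun j l => ⟨wI_nonneg hN0 a _, wI_le hN0 a _⟩)
    (fun l => ⟨wI_nonneg hN0 a _, wI_le hN0 a _⟩) (fun j l => y (some j) (σ j l))
    (fun l => -(y none (τ l) - c * N))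
    (fun j l => by
      have h1 := wI_mod (D := N) a (E (some j) (σ j l))
      have h2 := hy (some j) (σ j l)
      have h3 := dvd_sub h2 h1
      rwa [sub_sub_sub_cancel_right] at h3)
    (fun l => by
      have h1 := wI_mod (D := N) a (e' (τ l))
      have h2 := hy none (τ l)
      have h3 : (N : ℤ) ∣ -(y none (τ l) - c * N) - a * e' (τ l) := by
        have h4 : -(y none (τ l) - c * N) - a * e' (τ l) =
            -(y none (τ l) - a * E none (τ l)) + N * (c - a * K) := by
          simp only [he']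
          ring
        rw [h4]
        exact dvd_add ((dvd_neg).2 h2) (Dvd.intro _ rfl)
      have h5 := dvd_sub h3 h1
      rwa [sub_sub_sub_cancel_right] at h5)
    (fun κ s => by
      have h5 := hc (fun x => x.elim (τ s) (fun j => σ j (κ j)))
      rw [Fintype.sum_option] at h5
      simp only [Option.elim] at h5
      constructor
      · linarith [h5.1]
      · linarith [h5.2]) (by
      have h1 : ∀ j, ∑ l, y (some j) (σ j l) = ∑ l, y (some j) l := fun j =>
        Equiv.sum_comp (σ j) (fun l => y (some j) l)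
      have h2 : ∑ l, -(y none (τ l) - c * N) = ∑ l, -(y none l - c * N) :=
        Equiv.sum_comp τ (fun l => -(y none l - c * N))
      simp only [h1, h2]
      have h3 : (N : ℤ) ∣ ∑ j, ∑ l, (y (some j) l - a * E (some j) l) +
          ∑ l, (y none l - a * E none l) :=
        dvd_add (dvd_sum fun j _ => dvd_sum fun l _ => hy _ l) (dvd_sum fun l _ => hy _ l)
      obtain ⟨z, hz⟩ := h3
      simp only [sum_sub_distrib, ← mul_sum] at hz
      simp only [sum_neg_distrib, sum_sub_distrib, sum_add_distrib, sum_const, card_univ,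
        Fintype.card_fin, nsmul_eq_mul] at hfu ⊢
      refine ⟨z + a * (n * K - ∑ i, ((cw m n i : ℕ) : ℤ)) - n * c, ?_⟩
      rw [hK]
      linear_combination hz + a * hfu)
  have h1 : ∀ j, ∑ l, wI N a (E (some j) (σ j l)) = ∑ l, wI N a (E (some j) l) := fun j =>
    Equiv.sum_comp (σ j) (fun l => wI N a (E (some j) l))
  have h2 : ∑ l, wI N a (e' (τ l)) = ∑ l, wI N a (e' l) :=
    Equiv.sum_comp τ (fun l => wI N a (e' l))
  have h3 := hI M q κ s (by rw [← hM, h2, Finset.sum_congr rfl fun j _ => h1 j]) hq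
  exact absurd h3 (not_lt.2 hlt.le)

/-- Fuchs' relation modulo `N` -/
theorem fuchs_dvd {F : Type u} [Field F] [CharZero F] {m n : ℕ} (hm : 0 < m) (hn : 0 < n)
    (b : Fin (n + 1) → ℤ[X]) (α : Fin m → F) (Q : Fin (n + 1) → F[X])
    (hF : IsFuchs b α Q) (N : ℕ) (hN : 0 < N) (E : Option (Fin m) → Fin n → ℤ)
    (hE : HasExps α Q (fun j l => (E (some j) l : ℚ) / N) (fun l => -(E none l : ℚ) / N)) :
    (N : ℤ) ∣ ∑ x, ∑ l, E x l := by
  have hNq : (N : ℚ) ≠ 0 := by exact_mod_cast hN.ne'
  have hfu := fuchs_int hm hn hF hE (N := N) (mu := fun (j : Fin m) (l : Fin n) => E (some j) l)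
    (mu' := fun l : Fin n => -E none l) (fun j l => by field_simp) (fun l => by push_cast; field_simp)
  rw [Fintype.sum_option]
  simp only [sum_neg_distrib, sum_add_distrib, sum_const, card_univ,
        Fintype.card_fin, nsmul_eq_mul] at hfu
  refine ⟨n * ((n - 1) * (m - 1) : ℕ) - ∑ i, ((cw m n i : ℕ) : ℤ), ?_⟩
  linear_combination hfu

end Pool.Agent.Q168.PC
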