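import Pool.Agent.Q168.PC.Two

set_option autoImplicit false
set_option maxHeartbeats 4000000

/-!
Rank two, at most two values of the exponent differences: small lifts.
-/

namespace Pool.Agent.Q168.PC

open Finset

lemma exists_signs {ι : Type*} [DecidableEq ι] (G : Finset ι) (i : ℤ) (hi : |i| ≤ G.card)
    (hpar : i % 2 = (G.card : ℤ) % 2) :
    ∃ η : ι → ℤ, (∀ x, η x = 1 ∨ η x = -1) ∧ ∑ x ∈ G, η x = i := by
  have hi' := abs_le.1 hi
  obtain ⟨T, hTG, hT⟩ := exists_subset_card_eq (s := G) (n := ((G.card + i) / 2).toNat) (by omega)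
  refine ⟨fun x => if x ∈ T then 1 else -1, fun x => by
    by_cases h : x ∈ T
    · exact Or.inl (if_pos h)
    · exact Or.inr (if_neg h), ?_⟩
  have h1 : ∀ x ∈ G, (if x ∈ T then (1 : ℤ) else -1) = 2 * (if x ∈ T then 1 else 0) - 1 := by
    intro x _
    split_ifs <;> norm_num
  rw [sum_congr rfl h1, sum_sub_distrib, ← mul_sum, sum_ite_mem, inter_eq_right.2 hTG]
  simp only [sum_const, nsmul_eq_mul, mul_one]
  rw [hT]
  omega

theorem lifts_two {ι : Type*} [Fintype ι] [DecidableEq ι] {N : ℕ} (hN : N.Prime) (hN2 : N ≠ 2)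
    (E : ι → Fin 2 → ℤ) (hsum : (N : ℤ) ∣ ∑ x, ∑ l, E x l)
    (hres : ∀ κ : ι → Fin 2, ¬ (N : ℤ) ∣ ∑ x, E x (κ x)) {d1 d2 : ℤ} (G1 G2 : Finset ι)
    (hdis : Disjoint G1 G2) (hG1 : G1.Nonempty) (hG2 : G2.Nonempty)
    (hbig : 2 * G1.card * G2.card * (G1.card + G2.card) < N)
    (hd1 : ¬ (N : ℤ) ∣ d1) (hd2 : ¬ (N : ℤ) ∣ d2)
    (h1 : ∀ x ∈ G1, (N : ℤ) ∣ E x 1 - E x 0 - d1 ∨ (N : ℤ) ∣ E x 1 - E x 0 + d1)
    (h2 : ∀ x ∈ G2, (N : ℤ) ∣ E x 1 - E x 0 - d2 ∨ (N : ℤ) ∣ E x 1 - E x 0 + d2)
    (h0 : ∀ x, x ∉ G1 → x ∉ G2 → (N : ℤ) ∣ E x 1 - E x 0) :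
    ∃ (a : ℤ) (y : ι → Fin 2 → ℤ) (c : ℤ), ¬ (N : ℤ) ∣ a ∧ (∀ x l, (N : ℤ) ∣ y x l - a * E x l) ∧
      ∀ κ : ι → Fin 2, c * N < ∑ x, y x (κ x) ∧ ∑ x, y x (κ x) < (c + 1) * N := by
  classical
  have hNp : Prime (N : ℤ) := Nat.prime_iff_prime_int.1 hN
  have hN0 : (0 : ℤ) < N := by exact_mod_cast hN.pos
  have hNodd : (N : ℤ) % 2 = 1 := by
    have := hN.eq_two_or_odd
    omega
  -- the signs of the differences
  have hε : ∀ x, ∃ ε : ℤ, (ε = 1 ∨ ε = -1) ∧ (x ∈ G1 → (N : ℤ) ∣ E x 1 - E x 0 - ε * d1) ∧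
      (x ∈ G2 → (N : ℤ) ∣ E x 1 - E x 0 - ε * d2) := by
    intro x
    by_cases hx1 : x ∈ G1
    · have hx2 : x ∉ G2 := disjoint_left.1 hdis hx1
      rcases h1 x hx1 with h | h
      · exact ⟨1, Or.inl rfl, fun _ => by simpa using h, fun h => absurd h hx2⟩
      · exact ⟨-1, Or.inr rfl, fun _ => by simpa using h, fun h => absurd h hx2⟩
    · by_cases hx2 : x ∈ G2
      · rcases h2 x hx2 with h | h
        · exact ⟨1, Or.inl rfl, fun h => absurd h hx1, fun _ => by simpa using h⟩
        · exact ⟨-1, Or.inr rfl, fun h => absurd h hx1, fun _ => by simpa using h⟩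
      · exact ⟨1, Or.inl rfl, fun h => absurd h hx1, fun h => absurd h hx2⟩
  choose ε hε1 hε2 hε3 using hε
  have hεsq : ∀ x, ε x * ε x = 1 := by
    intro x
    rcases hε1 x with h | h <;> rw [h] <;> norm_num
  -- twice a sum of exponents
  have htwo : ∀ (E' : ι → Fin 2 → ℤ) (κ : ι → Fin 2), 2 * ∑ x, E' x (κ x) =
      ∑ x, ∑ l, E' x l + ∑ x, (if κ x = 1 then 1 else -1) * (E' x 1 - E' x 0) := by
    intro E' κ
    rw [mul_sum, ← sum_add_distrib]
    refine sum_congr rfl fun x _ => ?_
    rw [Fin.sum_univ_two]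
    have hk : κ x = 0 ∨ κ x = 1 := by
      have := (κ x).isLt
      rcases Nat.lt_or_ge (κ x : ℕ) 1 with h | h
      · left; ext; simp; omega
      · right; ext; simp; omega
    rcases hk with hk | hk
    · rw [hk, if_neg (by decide)]
      ring
    · rw [hk, if_pos rfl]
      ring
  -- split of the sums over all points
  have hsplit : ∀ f : ι → ℤ, (∀ x, x ∉ G1 → x ∉ G2 → f x = 0) →
      ∑ x, f x = ∑ x ∈ G1, f x + ∑ x ∈ G2, f x := by
    intro f hf
    rw [← sum_union hdis]
    symm
    refine sum_subset (subset_univ _) fun x _ hx => ?_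
    rw [mem_union, not_or] at hx
    exact hf x hx.1 hx.2
  have hr : (0 : ℤ) < G1.card := by exact_mod_cast hG1.card_pos
  have hs : (0 : ℤ) < G2.card := by exact_mod_cast hG2.card_pos
  obtain ⟨u, X, Y, hu, hX, hY, hnorm, hodd⟩ := two_values hN hN2 hr hs (by exact_mod_cast hbig)
    hd1 hd2 (by
      intro i j hi hj hi2 hj2 hdvd
      obtain ⟨η1, k1, k2⟩ := exists_signs G1 i hi hi2
      obtain ⟨η2, m1, m2⟩ := exists_signs G2 j hj hj2
      set η : ι → ℤ := fun x => if x ∈ G1 then η1 x else η2 x with hη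
      have hη1 : ∀ x, η x = 1 ∨ η x = -1 := by
        intro x
        simp only [hη]
        split_ifs
        · exact k1 x
        · exact m1 x
      set κ : ι → Fin 2 := fun x => if η x * ε x = 1 then 1 else 0 with hκ
      refine hres κ ?_
      have h3 : (N : ℤ) ∣ 2 * ∑ x, E x (κ x) := by
        rw [htwo]
        refine dvd_add hsum ?_
        have h4 : ∀ x, (if κ x = 1 then (1 : ℤ) else -1) = η x * ε x := by
          intro x
          have h5 : η x * ε x = 1 ∨ η x * ε x = -1 := by
            rcases hη1 x with h | h <;> rcases hε1 x with h' | h' <;> rw [h, h'] <;> norm_num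
          rcases h5 with h5 | h5
          · have : κ x = 1 := by simp only [hκ]; rw [if_pos h5]
            rw [if_pos this, h5]
          · have : κ x = 0 := by
              simp only [hκ]; rw [if_neg (by rw [h5]; norm_num)]
            rw [this, if_neg (by decide), h5]
        have h5 : ∑ x, (if κ x = 1 then (1 : ℤ) else -1) * (E x 1 - E x 0) =
            ∑ x, (η x * ε x) * ((E x 1 - E x 0) -
              (if x ∈ G1 then ε x * d1 else if x ∈ G2 then ε x * d2 else 0)) +
            ∑ x, (η x * ε x) *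
              (if x ∈ G1 then ε x * d1 else if x ∈ G2 then ε x * d2 else 0) := by
          rw [← sum_add_distrib]
          refine sum_congr rfl fun x _ => ?_
          rw [h4]
          ring
        rw [h5]
        refine dvd_add (dvd_sum fun x _ => Dvd.dvd.mul_left ?_ _) ?_
        · by_cases hx1 : x ∈ G1
          · rw [if_pos hx1]
            exact hε2 x hx1
          · rw [if_neg hx1]
            by_cases hx2 : x ∈ G2
            · rw [if_pos hx2]
              exact hε3 x hx2
            · rw [if_neg hx2, sub_zero]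
              exact h0 x hx1 hx2
        · rw [hsplit _ (fun x hx1 hx2 => by rw [if_neg hx1, if_neg hx2, mul_zero])]
          have h6 : ∑ x ∈ G1, (η x * ε x) *
              (if x ∈ G1 then ε x * d1 else if x ∈ G2 then ε x * d2 else 0) = i * d1 := by
            rw [← k2, sum_mul]
            refine sum_congr rfl fun x hx => ?_
            simp only [hη]
            rw [if_pos hx, if_pos hx]
            linear_combination (η1 x * d1) * hεsq x
          have h7 : ∑ x ∈ G2, (η x * ε x) *
              (if x ∈ G1 then ε x * d1 else if x ∈ G2 then ε x * d2 else 0) = j * d2 := by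
            rw [← m2, sum_mul]
            refine sum_congr rfl fun x hx => ?_
            have hx1 : x ∉ G1 := disjoint_right.1 hdis hx
            simp only [hη]
            rw [if_neg hx1, if_neg hx1, if_pos hx]
            linear_combination (η2 x * d2) * hεsq x
          rw [h6, h7]
          exact hdvd
      rcases hNp.dvd_or_dvd h3 with h | h
      · exfalso
        have := Int.le_of_dvd (by norm_num) h
        have := hN.two_le
        omega
      · exact h)
  -- the lifts
  set δ : ι → ℤ := fun x => if x ∈ G1 then ε x * X else if x ∈ G2 then ε x * Y else 0 with hδ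
  set y : ι → Fin 2 → ℤ := fun x l => u * E x 0 + (if l = 1 then δ x else 0) with hy
  have hδmod : ∀ x, (N : ℤ) ∣ δ x - u * (E x 1 - E x 0) := by
    intro x
    simp only [hδ]
    by_cases hx1 : x ∈ G1
    · rw [if_pos hx1]
      obtain ⟨z, hz⟩ := hε2 x hx1
      obtain ⟨z', hz'⟩ := hX
      exact ⟨ε x * z' - u * z, by linear_combination ε x * hz' - u * hz⟩
    · rw [if_neg hx1]
      by_cases hx2 : x ∈ G2
      · rw [if_pos hx2]
        obtain ⟨z, hz⟩ := hε3 x hx2
        obtain ⟨z', hz'⟩ := hY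
        exact ⟨ε x * z' - u * z, by linear_combination ε x * hz' - u * hz⟩
      · rw [if_neg hx2]
        obtain ⟨z, hz⟩ := h0 x hx1 hx2
        exact ⟨-(u * z), by linear_combination -u * hz⟩
  have hy0 : ∀ x, y x 0 = u * E x 0 := fun x => by simp [hy]
  have hy1 : ∀ x, y x 1 = u * E x 0 + δ x := fun x => by simp [hy]
  have hymod : ∀ x l, (N : ℤ) ∣ y x l - u * E x l := by
    intro x l
    have hl : l = 0 ∨ l = 1 := by
      rcases Nat.lt_or_ge (l : ℕ) 1 with h | h
      · left; ext; simp; omega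
      · right; ext; simp; omega
    rcases hl with rfl | rfl
    · rw [hy0]
      simp
    · rw [hy1]
      have := hδmod x
      have h3 : u * E x 0 + δ x - u * E x 1 = δ x - u * (E x 1 - E x 0) := by ring
      rw [h3]
      exact this
  have hydiff : ∀ x, y x 1 - y x 0 = δ x := by
    intro x
    rw [hy0, hy1]
    ring
  -- the total sum
  obtain ⟨k, hk⟩ : (N : ℤ) ∣ ∑ x, ∑ l, y x l := by
    have h3 : ∑ x, ∑ l, y x l = ∑ x, ∑ l, (y x l - u * E x l) + u * ∑ x, ∑ l, E x l := by
      simp only [mul_sum, sum_sub_distrib]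
      ring
    rw [h3]
    exact dvd_add (dvd_sum fun x _ => dvd_sum fun l _ => hymod x l) (hsum.mul_left u)
  have hkodd : k % 2 = 1 := by
    have h3 : ∑ x, ∑ l, y x l = 2 * ∑ x, u * E x 0 + ∑ x, δ x := by
      rw [mul_sum, ← sum_add_distrib]
      refine sum_congr rfl fun x _ => ?_
      rw [Fin.sum_univ_two]
      rw [hy0, hy1]
      ring
    have h4 : ∑ x, δ x = (∑ x ∈ G1, ε x) * X + (∑ x ∈ G2, ε x) * Y := by
      rw [hsplit _ (fun x hx1 hx2 => by simp only [hδ]; rw [if_neg hx1, if_neg hx2]), sum_mul,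
        sum_mul]
      congr 1
      · refine sum_congr rfl fun x hx => ?_
        simp only [hδ]
        rw [if_pos hx]
      · refine sum_congr rfl fun x hx => ?_
        simp only [hδ]
        rw [if_neg (disjoint_right.1 hdis hx), if_pos hx]
    have h5 : ∀ G : Finset ι, ∃ z : ℤ, ∑ x ∈ G, ε x = G.card - 2 * z := by
      intro G
      refine ⟨((G.filter fun x => ε x = -1).card : ℤ), ?_⟩
      have h6 : ∀ x ∈ G, ε x = 1 - 2 * (if ε x = -1 then 1 else 0) := by
        intro x _
        rcases hε1 x with h | h <;> rw [h] <;> norm_num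
      rw [sum_congr rfl h6, sum_sub_distrib, ← mul_sum, sum_const, nsmul_eq_mul, mul_one,
        sum_boole]
    obtain ⟨z1, hz1⟩ := h5 G1
    obtain ⟨z2, hz2⟩ := h5 G2
    rw [h3, h4, hz1, hz2] at hk
    by_contra hcon
    have h6 : k % 2 = 0 := by omega
    obtain ⟨k', hk'⟩ := Int.dvd_of_emod_eq_zero h6
    have h7 : (G1.card : ℤ) * X + G2.card * Y = 2 * (N * k' - ∑ x, u * E x 0 + z1 * X + z2 * Y) := by
      rw [hk'] at hk
      linarith
    omega
  refine ⟨u, y, (k - 1) / 2, hu, hymod, fun κ => ?_⟩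
  have h3 := htwo y κ
  rw [hk] at h3
  simp only [hydiff] at h3
  have h4 : |∑ x, (if κ x = 1 then (1 : ℤ) else -1) * δ x| ≤ G1.card * |X| + G2.card * |Y| := by
    rw [hsplit _ (fun x hx1 hx2 => by simp only [hδ]; rw [if_neg hx1, if_neg hx2, mul_zero])]
    have habs : ∀ (x : ι) (Z : ℤ), |(if κ x = 1 then (1 : ℤ) else -1) * (ε x * Z)| = |Z| := by
      intro x Z
      rw [abs_mul, abs_mul]
      have e1 : |(if κ x = 1 then (1 : ℤ) else -1)| = 1 := by split_ifs <;> norm_num
      have e2 : |ε x| = 1 := by rcases hε1 x with h | h <;> rw [h] <;> norm_num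
      rw [e1, e2, one_mul, one_mul]
    refine (abs_add_le _ _).trans (add_le_add ?_ ?_)
    · refine (abs_sum_le_sum_abs _ _).trans (le_of_eq ?_)
      rw [sum_congr rfl (g := fun _ => |X|), sum_const, nsmul_eq_mul]
      intro x hx
      simp only [hδ]
      rw [if_pos hx]
      exact habs x X
    · refine (abs_sum_le_sum_abs _ _).trans (le_of_eq ?_)
      rw [sum_congr rfl (g := fun _ => |Y|), sum_const, nsmul_eq_mul]
      intro x hx
      simp only [hδ]
      rw [if_neg (disjoint_right.1 hdis hx), if_pos hx]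
      exact habs x Y
  have h5 := abs_le.1 h4
  have h6 : k = 2 * ((k - 1) / 2) + 1 := by omega
  set c : ℤ := (k - 1) / 2 with hc
  rw [h6] at h3
  constructor
  · have : 2 * (c * N) < 2 * ∑ x, y x (κ x) := by
      rw [h3]
      have h7 : (N : ℤ) * (2 * c + 1) = 2 * (c * N) + N := by ring
      rw [h7]
      linarith
    linarith
  · have : 2 * ∑ x, y x (κ x) < 2 * ((c + 1) * N) := by
      rw [h3]
      have h7 : (N : ℤ) * (2 * c + 1) = 2 * ((c + 1) * N) - N := by ring
      rw [h7]
      linarith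
    linarith

end Pool.Agent.Q168.PC
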